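import Pool.Agent.LibHall.Lang

/-! Integral points of `y² = x³ + A x + B` in the wider range `8 m⁴ ≤ p³`. -/

namespace Pool.Agent.LibHall

/-- third form with the linear coefficient taken into account -/
def RA (A x y p q : ℤ) : ℤ := 3 * p * GA A x y p q - 2 * M x p q * F x y p q

lemma RA_zero {A x y p q : ℤ} (hq : 0 < q) (hcop : IsCoprime p q) (hR : RA A x y p q = 0) :
    q = 1 := by
  have h1 : RA A x y p q = p * (M x p q) ^ 2 + q * (q * (4 * y * q * (6 * p ^ 2 - M x p q)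
      - 8 * p * M x p q * x - 24 * p * x ^ 2 * q ^ 2 - 12 * A * p * q ^ 2)) := by
    unfold RA GA G F M; ring
  have h2 : q ∣ p * (M x p q) ^ 2 := by
    rw [h1] at hR
    exact ⟨-(q * (4 * y * q * (6 * p ^ 2 - M x p q) - 8 * p * M x p q * x
      - 24 * p * x ^ 2 * q ^ 2 - 12 * A * p * q ^ 2)), by linear_combination hR⟩
  exact one_of_dvd hq (hcop.mul_left (coprime_M hcop).pow_left) h2

/-- basic identities -/
lemma curve_R {A B x y p q : ℤ} (h : y ^ 2 = x ^ 3 + A * x + B) :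
    12 * (B * q ^ 6) = p * RA A x y p q - 4 * M x p q * GA A x y p q - 4 * (A * q ^ 4) * M x p q
      + 3 * (F x y p q) ^ 2 := by
  unfold RA GA G F M
  linear_combination -12 * q ^ 6 * h

lemma GA_eq (A x y p q : ℤ) :
    GA A x y p q * (6 * p ^ 2 - M x p q) =
      2 * p * RA A x y p q + 3 * (M x p q) ^ 3 + 4 * (A * q ^ 4) * M x p q := by
  unfold RA GA G F M; ring

lemma F_four (A x y p q : ℤ) :
    4 * p * F x y p q = GA A x y p q + 3 * (M x p q) ^ 2 + 4 * (A * q ^ 4) := by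
  unfold GA G; ring

/-- The Diophantine step. -/
lemma ra_zero_bound {A B p m f g N : ℤ} (hp : 0 < p) (hN : 1 ≤ N) (hA : |A| ≤ N) (hB : |B| ≤ N)
    (hns : 4 * A ^ 3 + 27 * B ^ 2 ≠ 0) (h1 : 3 * p * g = 2 * m * f)
    (h2 : 4 * p * f = g + 3 * m ^ 2 + 4 * A) (h3 : 12 * B = -4 * m * g - 4 * A * m + 3 * f ^ 2)
    (hm : 8 * m ^ 4 ≤ p ^ 3) : p ≤ 2000000 * N ^ 4 := by
  by_contra hcon
  push Not at hcon
  have hA' := abs_le.mp hA
  have hB' := abs_le.mp hB
  have hN4 : N ≤ N ^ 4 := le_self_pow₀ hN (by norm_num)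
  have hNp : 1000000 * N < p := by linarith
  have hm0 : m ≠ 0 := by
    rintro rfl
    have hg : g = 0 := by
      have : p * g = 0 := by linarith
      rcases mul_eq_zero.mp this with h | h
      · omega
      · exact h
    rw [hg] at h2
    have hpf : p * f = A := by linarith
    have hf : f = 0 := by
      by_contra hf
      have h4 : p * 1 ≤ |p * f| := by
        rw [abs_mul, abs_of_pos hp]
        gcongr
        exact Int.one_le_abs hf
      rw [hpf] at h4
      linarith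
    rw [hf] at hpf h3
    apply hns
    have hA0 : A = 0 := by linarith
    have hB0 : B = 0 := by linarith
    rw [hA0, hB0]; norm_num
  have hgpos : 0 < Int.gcd p m := Int.gcd_pos_of_ne_zero_left _ hp.ne'
  obtain ⟨P, Q, hPN, hP, hQ⟩ := Int.exists_gcd_one hgpos
  set d : ℤ := (Int.gcd p m : ℤ) with hd
  have hd0 : 0 < d := Int.natCast_pos.mpr hgpos
  have hcop : IsCoprime P Q := Int.isCoprime_iff_gcd_eq_one.mpr hPN
  have hP0 : 0 < P := by
    by_contra hcon
    push Not at hcon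
    nlinarith
  have hQ0 : Q ≠ 0 := by
    rintro rfl
    exact hm0 (by rw [hQ]; ring)
  have hfQ : 3 * P * g = 2 * Q * f := by
    have : d * (3 * P * g - 2 * Q * f) = 0 := by
      rw [hP, hQ] at h1
      linear_combination h1
    rcases mul_eq_zero.mp this with h | h
    · omega
    · linarith
  have hdvd : P ∣ 2 * f := by
    have : P ∣ 2 * f * Q := ⟨3 * g, by linear_combination -hfQ⟩
    exact hcop.dvd_of_dvd_mul_right this
  obtain ⟨c, hc⟩ := hdvd
  have hcQ : c * Q = 3 * g := by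
    have : P * (c * Q - 3 * g) = 0 := by linear_combination -hfQ - Q * hc
    rcases mul_eq_zero.mp this with h | h
    · omega
    · linarith
  -- (★★)
  have k1 : 6 * d * P ^ 2 * c = Q * c + 9 * m ^ 2 + 12 * A := by
    have h4 : 12 * p * f = 3 * g + 9 * m ^ 2 + 12 * A := by linarith
    rw [hP] at h4
    linear_combination h4 - 6 * d * P * hc - hcQ
  -- (★)
  have k2 : c * (3 * Q * c + 36 * A - 5 * m ^ 2) = 96 * d * (3 * B + A * m) := by
    have h4 : 9 * P ^ 2 * c ^ 2 = 144 * B + 48 * A * m + 16 * m * Q * c := by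
      linear_combination -12 * h3 - 16 * m * hcQ - 9 * (2 * f + P * c) * hc
    linear_combination (2 * d) * h4 - 3 * c * k1 - 32 * m * c * hQ
  -- bound for `m`
  have hmabs : |m| ≤ p := by
    by_contra hcon
    push Not at hcon
    have h4 : m ^ 4 = |m| ^ 4 := by rw [← abs_pow]; exact (abs_of_nonneg (by positivity)).symm
    have h5 : p ^ 3 ≤ |m| ^ 3 := pow_le_pow_left₀ hp.le hcon.le 3
    have h6 : |m| ^ 3 * 1 ≤ |m| ^ 3 * |m| := by
      gcongr
      exact Int.one_le_abs hm0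
    have h7 : 0 < |m| ^ 3 := by
      have := Int.one_le_abs hm0
      positivity
    nlinarith
  have hmsmall : 30 * |m| ≤ p := by
    by_contra hcon2
    push Not at hcon2
    have h4 : m ^ 4 = |m| ^ 4 := by rw [← abs_pow]; exact (abs_of_nonneg (by positivity)).symm
    have h5 : p ^ 3 ≤ (30 * |m|) ^ 3 := pow_le_pow_left₀ hp.le hcon2.le 3
    have h6 : 0 < |m| ^ 3 := by
      have := Int.one_le_abs hm0
      positivity
    have h7 : |m| ^ 3 * 30000 ≤ |m| ^ 3 * |m| := by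
      gcongr
      linarith
    nlinarith
  have hQm : |Q| * d = |m| := by rw [hQ, abs_mul, abs_of_pos hd0]
  have hQle : |Q| ≤ |m| := by
    rw [← hQm]
    have : |Q| * 1 ≤ |Q| * d := by gcongr; omega
    linarith
  have hPP : p ≤ d * P ^ 2 := by
    rw [hP]
    have : P * d * 1 ≤ P * d * P := by gcongr; omega
    linarith
  have hQabs := abs_le.mp (le_refl |Q|)
  have hc0 : c ≠ 0 := by
    rintro rfl
    have h4 : 3 * m ^ 2 = -4 * A := by linarith
    have h5 : 96 * d * (3 * B + A * m) = 0 := by rw [← k2]; ring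
    have h6 : 3 * B + A * m = 0 := by
      rcases mul_eq_zero.mp h5 with h | h
      · omega
      · exact h
    apply hns
    have h7 : 3 * (4 * A ^ 3 + 27 * B ^ 2) = 0 := by
      linear_combination (9 * (3 * B - A * m)) * h6 + 3 * A ^ 2 * h4
    omega
  -- `m²` is large
  have hD : 5 * (d * P ^ 2) ≤ 6 * d * P ^ 2 - Q := by linarith [hQabs.2]
  have hprod : c * (6 * d * P ^ 2 - Q) = 9 * m ^ 2 + 12 * A := by linear_combination k1
  have hcabs := Int.one_le_abs hc0
  have hbig : 49 * p ≤ 90 * m ^ 2 := by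
    have h4 : 1 * (5 * (d * P ^ 2)) ≤ |c| * (6 * d * P ^ 2 - Q) := by
      gcongr
    have h5 : |c| * (6 * d * P ^ 2 - Q) = |9 * m ^ 2 + 12 * A| := by
      rw [← hprod, abs_mul, abs_of_pos (by linarith [mul_pos hd0 (pow_pos hP0 2)] :
        0 < 6 * d * P ^ 2 - Q)]
    have h6 : |9 * m ^ 2 + 12 * A| ≤ 9 * m ^ 2 + 12 * N := by
      refine (abs_add_le _ _).trans ?_
      rw [abs_of_nonneg (by positivity : 0 ≤ 9 * m ^ 2), abs_mul]
      have : |(12 : ℤ)| = 12 := by norm_num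
      rw [this]; linarith
    linarith
  have hmN : 100000 * N ≤ m ^ 2 := by linarith
  have hcpos : 0 < c := by
    have h4 : 0 < c * (6 * d * P ^ 2 - Q) := by rw [hprod]; linarith
    exact pos_of_mul_pos_left h4 (by linarith [mul_pos hd0 (pow_pos hP0 2)])
  have hcup : 5 * (c * (d * P ^ 2)) ≤ 10 * m ^ 2 := by
    have h4 : c * (5 * (d * P ^ 2)) ≤ c * (6 * d * P ^ 2 - Q) := by gcongr
    linarith
  have hcp : c * p ≤ 2 * m ^ 2 := by
    have : c * p ≤ c * (d * P ^ 2) := by gcongr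
    linarith
  -- `c |Q| ≤ 25 N`
  have hcQle : 30 * (c * |Q|) ≤ 2 * m ^ 2 := by
    calc 30 * (c * |Q|) ≤ 30 * (c * |m|) := by gcongr
      _ = c * (30 * |m|) := by ring
      _ ≤ c * p := by gcongr
      _ ≤ 2 * m ^ 2 := hcp
  have hm1 : 1 ≤ |m| := Int.one_le_abs hm0
  have hcm : c * |m| ≤ 25 * (d * N) := by
    have h4 : 4 * m ^ 2 ≤ |3 * Q * c + 36 * A - 5 * m ^ 2| := by
      have h5 : Q * c ≤ c * |Q| := by
        rw [mul_comm c]; gcongr; exact hQabs.2
      have h6 := neg_abs_le (3 * Q * c + 36 * A - 5 * m ^ 2)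
      nlinarith
    have h5 : c * |3 * Q * c + 36 * A - 5 * m ^ 2| = 96 * d * |3 * B + A * m| := by
      have h6 := congrArg abs k2
      rw [abs_mul, abs_of_pos hcpos, abs_mul, abs_of_pos (by positivity : 0 < 96 * d)] at h6
      exact h6
    have h6 : |3 * B + A * m| ≤ 3 * N + N * |m| := by
      refine (abs_add_le _ _).trans ?_
      rw [abs_mul, abs_mul A]
      have : |(3 : ℤ)| = 3 := by norm_num
      rw [this]
      have : |A| * |m| ≤ N * |m| := by gcongr
      linarith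
    have h7 : 75 ≤ |m| := by
      by_contra hc3
      have h8 : |m| ≤ 74 := by omega
      have h9 : |m| ^ 2 ≤ 74 ^ 2 := pow_le_pow_left₀ (abs_nonneg _) h8 2
      rw [sq_abs] at h9
      linarith
    have h8 : c * (4 * m ^ 2) ≤ 96 * d * (3 * N + N * |m|) := by
      calc c * (4 * m ^ 2) ≤ c * |3 * Q * c + 36 * A - 5 * m ^ 2| := by gcongr
        _ = 96 * d * |3 * B + A * m| := h5
        _ ≤ _ := by gcongr
    have h9 : 25 * (3 * N + N * |m|) ≤ 26 * (N * |m|) := by nlinarith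
    have h10 : |m| * (100 * (c * |m|)) ≤ |m| * (2496 * (d * N)) := by
      have e1 : c * (4 * m ^ 2) = |m| * (4 * (c * |m|)) := by
        rw [← sq_abs m]; ring
      rw [e1] at h8
      have h11 : 96 * d * (25 * (3 * N + N * |m|)) ≤ 96 * d * (26 * (N * |m|)) := by gcongr
      linarith
    have h11 : 100 * (c * |m|) ≤ 2496 * (d * N) := le_of_mul_le_mul_left h10 (by omega)
    have h12 : 0 < d * N := by positivity
    linarith
  have hcQN : c * |Q| ≤ 25 * N := by
    have h4 : d * (c * |Q|) ≤ d * (25 * N) := by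
      calc d * (c * |Q|) = c * (|Q| * d) := by ring
        _ = c * |m| := by rw [hQm]
        _ ≤ 25 * (d * N) := hcm
        _ = d * (25 * N) := by ring
    exact le_of_mul_le_mul_left h4 hd0
  have hQN : |Q| ≤ 25 * N := by
    have : 1 * |Q| ≤ c * |Q| := by gcongr; omega
    linarith
  -- divisibility by `d`
  have hu : Q * c + 12 * A = d * (6 * P ^ 2 * c - 9 * d * Q ^ 2) := by
    rw [hQ] at k1
    linear_combination -k1
  rcases eq_or_ne (Q * c + 12 * A) 0 with h0 | h0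
  · -- `Q c = -12 A`
    have h4 : A * m = -8 * B := by
      have h5 : d * (5 * (A * m) * 12 - 96 * (3 * B + A * m)) = 0 := by
        have h6 : c * (3 * Q * c + 36 * A - 5 * m ^ 2) = 3 * c * (Q * c + 12 * A)
            - 5 * m * d * (Q * c + 12 * A) + 60 * (A * m * d) + 5 * m * c * (Q * d - m) := by ring
        rw [h0, ← hQ] at h6
        linear_combination k2 - h6
      rcases mul_eq_zero.mp h5 with h | h
      · omega
      · linarith
    have hA0 : A ≠ 0 := by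
      rintro rfl
      have : Q * c = 0 := by linarith
      rcases mul_eq_zero.mp this with h | h
      · exact hQ0 h
      · exact hc0 h
    have h5 : |m| ≤ 8 * N := by
      have h6 : 1 * |m| ≤ |A| * |m| := by
        gcongr
        exact Int.one_le_abs hA0
      rw [← abs_mul, h4, abs_mul] at h6
      have : |(-8 : ℤ)| = 8 := by norm_num
      rw [this] at h6
      linarith
    have h6 : |m| ^ 2 ≤ (8 * N) ^ 2 := pow_le_pow_left₀ (abs_nonneg _) h5 2
    rw [sq_abs] at h6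
    have h7 : N ^ 2 ≤ N ^ 4 := pow_le_pow_right₀ hN (by norm_num)
    have h8 : 0 < N ^ 2 := by positivity
    nlinarith
  · have h4 : d ≤ |Q * c + 12 * A| :=
      Int.le_of_dvd (abs_pos.mpr h0) ((dvd_abs _ _).mpr ⟨_, hu⟩)
    have h5 : |Q * c + 12 * A| ≤ 37 * N := by
      refine (abs_add_le _ _).trans ?_
      rw [abs_mul, abs_mul, abs_of_pos hcpos]
      have : |(12 : ℤ)| = 12 := by norm_num
      rw [this, mul_comm |Q| c]
      linarith
    have h6 : |m| ≤ 925 * N ^ 2 := by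
      rw [← hQm]
      calc |Q| * d ≤ (25 * N) * (37 * N) := by gcongr; exact h4.trans h5
        _ = 925 * N ^ 2 := by ring
    have h7 : |m| ^ 2 ≤ (925 * N ^ 2) ^ 2 := pow_le_pow_left₀ (abs_nonneg _) h6 2
    rw [sq_abs] at h7
    have h8 : (925 * N ^ 2) ^ 2 = 855625 * N ^ 4 := by ring
    rw [h8] at h7
    linarith

/-- size of the third form -/
lemma ra_bound {A B x y p q N w δ ε m : ℝ} (hw0 : 0 < w) (hw : w ^ 2 = x) (hx1 : 1 ≤ x)
    (hN : 1 ≤ N) (hA : |A| ≤ N) (hB : |B| ≤ N) (hNx : N ≤ x) (hp : 0 < p) (hq : 0 < q) (hy : 0 ≤ y)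
    (hδ : δ = p - w * q) (hε : ε = y - w ^ 3) (hc : y ^ 2 = x ^ 3 + A * x + B)
    (hmd : m = δ * (2 * p - δ)) (hd : 5 * p * |δ| ≤ 3 * |m|) (hd1 : |δ| ≤ p / 3)
    (hm : 8 * m ^ 4 ≤ p ^ 3) (hmp : 4 * |m| ≤ p ^ 2) (hpx : 3 * p ^ 2 ≤ 4 * (w * q) ^ 2) :
    w * |4 * y * q ^ 3 * (6 * p ^ 2 - (p ^ 2 - x * q ^ 2)) -
      p * (24 * p ^ 4 - 40 * p ^ 2 * (p ^ 2 - x * q ^ 2) + 15 * (p ^ 2 - x * q ^ 2) ^ 2)
      - 12 * A * q ^ 4 * p| ≤ 0.103 * w + N * q ^ 3 * (5.3 * |m| + 84 * q ^ 2) := by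
  have hw3 : 0 < w ^ 3 := by positivity
  have hε1 : ε * (y + w ^ 3) = A * w ^ 2 + B := by
    rw [hε, hw]
    have : (y - w ^ 3) * (y + w ^ 3) = y ^ 2 - (w ^ 2) ^ 3 := by ring
    rw [this, hw, hc]; ring
  have hε2 : w * |ε| ≤ 2 * N := by
    have h1 : |ε| * (y + w ^ 3) = |A * w ^ 2 + B| := by
      rw [← hε1, abs_mul, abs_of_pos (by positivity : 0 < y + w ^ 3)]
    have h2 : |A * w ^ 2 + B| ≤ 2 * N * w ^ 2 := by
      refine (abs_add_le _ _).trans ?_
      rw [abs_mul, abs_of_nonneg (by positivity : 0 ≤ w ^ 2)]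
      have h3 : |A| * w ^ 2 ≤ N * w ^ 2 := by gcongr
      have h4 : N * 1 ≤ N * w ^ 2 := by gcongr; rw [hw]; exact hx1
      linarith
    have h3 : |ε| * w ^ 3 ≤ |ε| * (y + w ^ 3) := by
      gcongr; linarith
    have h4 : w ^ 2 * (w * |ε|) ≤ w ^ 2 * (2 * N) := by linarith
    exact le_of_mul_le_mul_left h4 (by positivity)
  have hε3 : 2 * w ^ 3 * ε = A * w ^ 2 + B - ε ^ 2 := by
    have : y = w ^ 3 + ε := by rw [hε]; ring
    rw [this] at hε1
    linarith
  obtain ⟨T, hT⟩ : ∃ T : ℝ, T = 4 * y * q ^ 3 * (6 * p ^ 2 - (p ^ 2 - x * q ^ 2)) -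
      p * (24 * p ^ 4 - 40 * p ^ 2 * (p ^ 2 - x * q ^ 2) + 15 * (p ^ 2 - x * q ^ 2) ^ 2)
      - 12 * A * q ^ 4 * p := ⟨_, rfl⟩
  rw [← hT]
  have hform : w ^ 3 * T = w ^ 3 * (δ ^ 4 * (5 * p - 4 * δ)) +
      2 * q ^ 3 * (A * w ^ 2 * (δ * (4 * p + δ)) + (6 * p ^ 2 - m) * (B - ε ^ 2)) := by
    have h1 := r_form (x := x) (y := y) (p := p) (q := q) hw hδ (e := (y - w ^ 3) * q ^ 3) rfl
    rw [hT, h1, ← hε]
    have h2 : p ^ 2 - x * q ^ 2 = m := by rw [hmd]; exact m_form hw hδ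
    rw [h2]
    have h3 : A * w ^ 2 * (δ * (4 * p + δ)) = (6 * p ^ 2 - m) * (A * w ^ 2)
        - 6 * A * p * q * w ^ 3 := by
      rw [hmd, hδ]; ring
    rw [h3]
    linear_combination (2 * q ^ 3 * (6 * p ^ 2 - m)) * hε3
  have h1 := congrArg abs hform
  rw [abs_mul, abs_of_pos hw3] at h1
  have h5 := neg_abs_le δ
  have h6 := le_abs_self δ
  have h5' := neg_abs_le m
  have h6' := le_abs_self m
  have hmain : |δ ^ 4 * (5 * p - 4 * δ)| ≤ 0.103 := by
    have h3 : (5 * p * |δ|) ^ 4 ≤ (3 * |m|) ^ 4 := pow_le_pow_left₀ (by positivity) hd 4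
    have e1 : (5 * p * |δ|) ^ 4 = 625 * p ^ 4 * δ ^ 4 := by
      rw [mul_pow, mul_pow, show |δ| ^ 4 = (|δ| ^ 2) ^ 2 by ring, sq_abs]; ring
    have e2 : (3 * |m|) ^ 4 = 81 * m ^ 4 := by
      rw [mul_pow, show |m| ^ 4 = (|m| ^ 2) ^ 2 by ring, sq_abs]; ring
    rw [e1, e2] at h3
    have h4 : 5000 * (p : ℝ) * δ ^ 4 ≤ 81 := by
      have : (p : ℝ) ^ 3 * (5000 * p * δ ^ 4) ≤ p ^ 3 * 81 := by nlinarith
      exact le_of_mul_le_mul_left this (by positivity)
    have hδ4 : 0 ≤ δ ^ 4 := by positivity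
    rw [abs_mul, abs_of_nonneg hδ4, abs_of_nonneg (by linarith : 0 ≤ 5 * (p : ℝ) - 4 * δ)]
    have h7 : δ ^ 4 * (5 * p - 4 * δ) ≤ δ ^ 4 * (19 / 3 * p) := by
      gcongr
      linarith
    linarith
  have hp2 : 0 < p ^ 2 := by positivity
  have h2 : |A * w ^ 2 * (δ * (4 * p + δ))| ≤ N * w ^ 2 * (2.61 * |m|) := by
    rw [abs_mul, abs_mul, abs_mul, abs_of_nonneg (by positivity : 0 ≤ w ^ 2),
      abs_of_nonneg (by linarith : 0 ≤ 4 * p + δ)]
    have h7 : |δ| * (4 * p + δ) ≤ 2.61 * |m| := by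
      have h8 : |δ| * (4 * p + δ) ≤ |δ| * (13 / 3 * p) := by gcongr; linarith
      have := abs_nonneg m
      linarith
    have h8 : 0 ≤ |δ| * (4 * p + δ) := mul_nonneg (abs_nonneg _) (by linarith)
    gcongr
  have h3 : ε ^ 2 ≤ 4 * N := by
    have h4 : (w * |ε|) ^ 2 ≤ (2 * N) ^ 2 := pow_le_pow_left₀ (by positivity) hε2 2
    rw [mul_pow, sq_abs, hw] at h4
    have h7 : N * ε ^ 2 ≤ x * ε ^ 2 := by gcongr
    have h8 : N * ε ^ 2 ≤ N * (4 * N) := by linarith
    exact le_of_mul_le_mul_left h8 (by linarith)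
  have h4 : |(6 * p ^ 2 - m) * (B - ε ^ 2)| ≤ (6.25 * p ^ 2) * (5 * N) := by
    rw [abs_mul, abs_of_nonneg (by linarith : 0 ≤ 6 * p ^ 2 - m)]
    have h7 : |B - ε ^ 2| ≤ 5 * N := by
      refine (abs_sub _ _).trans ?_
      rw [abs_of_nonneg (sq_nonneg ε)]
      linarith
    have h8 : 6 * p ^ 2 - m ≤ 6.25 * p ^ 2 := by linarith
    gcongr
  have h7 : w ^ 3 * |T| ≤ w ^ 3 * 0.103 +
      2 * q ^ 3 * (N * w ^ 2 * (2.61 * |m|) + (6.25 * p ^ 2) * (5 * N)) := by
    rw [h1]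
    refine (abs_add_le _ _).trans ?_
    rw [abs_mul (w ^ 3), abs_of_pos hw3, abs_mul (2 * q ^ 3), abs_of_pos (by positivity : 0 < 2 * q ^ 3)]
    gcongr
    exact (abs_add_le _ _).trans (add_le_add h2 h4)
  have h8 : w ^ 2 * (w * |T|) ≤ w ^ 2 * (0.103 * w + N * q ^ 3 * (5.3 * |m| + 84 * q ^ 2)) := by
    have h9 : 2 * q ^ 3 * ((6.25 * p ^ 2) * (5 * N)) ≤ w ^ 2 * (N * q ^ 3 * (84 * q ^ 2)) := by
      have h10 : (N * q ^ 3) * (3 * p ^ 2) ≤ (N * q ^ 3) * (4 * (w * q) ^ 2) := by gcongr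
      have h11 : 0 < N * q ^ 3 * (w * q) ^ 2 := by positivity
      nlinarith
    have h10 : 0 ≤ w ^ 2 * (N * q ^ 3 * |m|) := by positivity
    nlinarith
  exact le_of_mul_le_mul_left h8 (by positivity)

/-- Integral points with `x` near the square of `p / q`, wider range. -/
theorem lang_four {A B x y p q N : ℤ} (hx : 0 < x) (hp : 0 < p) (hq : 0 < q) (hy : 0 ≤ y)
    (hcop : IsCoprime p q) (hN : 1 ≤ N) (hA : |A| ≤ N) (hB : |B| ≤ N)
    (hns : 4 * A ^ 3 + 27 * B ^ 2 ≠ 0) (hc : y ^ 2 = x ^ 3 + A * x + B)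
    (h : 8 * (M x p q) ^ 4 ≤ p ^ 3) : p ≤ 2000000 * N ^ 4 * q ^ 16 := by
  by_cases hR : RA A x y p q = 0
  · have hq1 := RA_zero hq hcop hR
    subst hq1
    have h1 := curve_R (p := p) (q := 1) hc
    have h2 := F_four A x y p 1
    rw [hR] at h1
    have := ra_zero_bound (m := M x p 1) (f := F x y p 1) (g := GA A x y p 1) hp hN hA hB hns
      (by unfold RA at hR; linarith) (by linarith) (by linarith) h
    linarith
  · have hq16 : 1 ≤ q ^ 16 := one_le_pow₀ (by omega)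
    have hN4 : 1 ≤ N ^ 4 := one_le_pow₀ hN
    obtain ⟨w, δ, hw0, hwx, hw2, hδ, hδp, hM⟩ := setup (x := x) (p := p) (q := q) hx hq
    have hpr : (0 : ℝ) < p := by exact_mod_cast hp
    have hqr : (0 : ℝ) < q := by exact_mod_cast hq
    have hq1r : (1 : ℝ) ≤ q := by exact_mod_cast hq
    have hyr : (0 : ℝ) ≤ y := by exact_mod_cast hy
    have hp1 : (1 : ℝ) ≤ p := by exact_mod_cast hp
    have hx1 : (1 : ℝ) ≤ x := by exact_mod_cast hx
    have hNr : (1 : ℝ) ≤ N := by exact_mod_cast hN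
    have hw1 : 1 ≤ w := by
      by_contra hcon
      push Not at hcon
      nlinarith
    obtain ⟨m, hm⟩ : ∃ m : ℝ, m = ((M x p q : ℤ) : ℝ) := ⟨_, rfl⟩
    rw [← hm] at hM
    have hr : 8 * m ^ 4 ≤ p ^ 3 := by
      have h' : ((8 * (M x p q) ^ 4 : ℤ) : ℝ) ≤ ((p ^ 3 : ℤ) : ℝ) := by exact_mod_cast h
      push_cast at h'
      rw [hm]
      exact h'
    have hmq : 4 * |m| ≤ p ^ 2 := by
      have hmq' : 4 * |M x p q| ≤ p ^ 2 := by
        rcases eq_or_ne (M x p q) 0 with h0 | h0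
        · rw [h0]; simp; positivity
        · have h1 := Int.one_le_abs h0
          have h2 : (M x p q) ^ 4 = |M x p q| ^ 4 := by
            rw [← abs_pow]; exact (abs_of_nonneg (by positivity)).symm
          rw [h2] at h
          have hp2 : 2 ≤ p := by
            by_contra hc2
            have h9 : p = 1 := by omega
            have h10 : p ^ 3 = 1 := by rw [h9]; norm_num
            have : 1 ≤ |M x p q| ^ 4 := one_le_pow₀ h1
            linarith
          by_contra hcon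
          push Not at hcon
          have h3 : (p ^ 2) ^ 2 < (4 * |M x p q|) ^ 2 :=
            pow_lt_pow_left₀ hcon (by positivity) (by norm_num)
          have h4 : (p ^ 2 * p ^ 2) ^ 2 < ((4 * |M x p q|) ^ 2) ^ 2 := by
            apply pow_lt_pow_left₀ _ (by positivity) (by norm_num)
            calc p ^ 2 * p ^ 2 = (p ^ 2) ^ 2 := by ring
              _ < _ := h3
          have h5 : ((4 * |M x p q|) ^ 2) ^ 2 = 256 * |M x p q| ^ 4 := by ring
          have h6 : (p ^ 2 * p ^ 2) ^ 2 = p ^ 5 * p ^ 3 := by ring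
          have h7 : 2 ^ 5 ≤ p ^ 5 := pow_le_pow_left₀ (by norm_num) hp2 5
          have h8 : 2 ^ 5 * p ^ 3 ≤ p ^ 5 * p ^ 3 := by gcongr
          linarith
      have h' : ((4 * |M x p q| : ℤ) : ℝ) ≤ ((p ^ 2 : ℤ) : ℝ) := by exact_mod_cast hmq'
      push_cast at h'
      rw [hm]
      exact h'
    obtain ⟨hd1, hd2, hd3⟩ := delta_bound hpr hδp hM
      (by have := sq_nonneg (p : ℝ); linarith)
    have hpe : (p : ℝ) ^ 2 = (w * q) ^ 2 + m := by rw [hM, hδ]; ring
    have hmabs := le_abs_self m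
    have hpx : 3 * (p : ℝ) ^ 2 ≤ 4 * (w * q) ^ 2 := by linarith
    have hpx' : (p : ℝ) ≤ 1.16 * (w * q) := by
      have : (p : ℝ) ^ 2 ≤ (1.16 * (w * q)) ^ 2 := by nlinarith [sq_nonneg (w * q)]
      exact (sq_le_sq₀ hpr.le (by positivity)).mp this
    have hgoal : (p : ℝ) ≤ 2000000 * (N : ℝ) ^ 4 * q ^ 16 := by
      rcases le_or_gt (x : ℝ) N with hxN | hxN
      · have h1 : w ≤ N := by nlinarith
        have h2 : (w * q) ≤ (N : ℝ) ^ 4 * q ^ 16 := by
          have h3 : (N : ℝ) ≤ N ^ 4 := le_self_pow₀ hNr (by norm_num)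
          have h4 : (q : ℝ) ≤ q ^ 16 := le_self_pow₀ hq1r (by norm_num)
          gcongr
          linarith
        have h5 : 0 < (N : ℝ) ^ 4 * q ^ 16 := by positivity
        linarith
      · have hAr : |(A : ℝ)| ≤ N := by exact_mod_cast hA
        have hBr : |(B : ℝ)| ≤ N := by exact_mod_cast hB
        have hcr : (y : ℝ) ^ 2 = x ^ 3 + A * x + B := by exact_mod_cast hc
        have hra := ra_bound hw0 hw2 hx1 hNr hAr hBr hxN.le hpr hqr hyr hδ (ε := y - w ^ 3) rfl hcr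
          hM hd2 hd1 hr hmq hpx
        have h1 : (1 : ℝ) ≤ |4 * (y : ℝ) * q ^ 3 * (6 * p ^ 2 - (p ^ 2 - x * q ^ 2)) -
            p * (24 * p ^ 4 - 40 * p ^ 2 * (p ^ 2 - x * q ^ 2) + 15 * (p ^ 2 - x * q ^ 2) ^ 2)
            - 12 * A * q ^ 4 * p| := by
          have h2 := Int.one_le_abs hR
          have h3 : ((1 : ℤ) : ℝ) ≤ ((|RA A x y p q| : ℤ) : ℝ) := by exact_mod_cast h2
          have h4 : RA A x y p q = 4 * y * q ^ 3 * (6 * p ^ 2 - (p ^ 2 - x * q ^ 2)) -
            p * (24 * p ^ 4 - 40 * p ^ 2 * (p ^ 2 - x * q ^ 2) + 15 * (p ^ 2 - x * q ^ 2) ^ 2)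
            - 12 * A * q ^ 4 * p := by
            unfold RA GA G F M; ring
          rw [h4] at h3
          push_cast at h3
          exact h3
        have h2 : w * 1 ≤ 0.103 * w + N * q ^ 3 * (5.3 * |m| + 84 * q ^ 2) :=
          le_trans (by gcongr) hra
        have hwN : w ≤ 5000 * (N : ℝ) ^ 4 * q ^ 15 := by
          rcases le_or_gt (84 * (q : ℝ) ^ 2) (5.3 * |m|) with h3 | h3
          · have h4 : w ≤ 12 * (N * q ^ 3 * |m|) := by
              have h5 : (N : ℝ) * q ^ 3 * (5.3 * |m| + 84 * q ^ 2) ≤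
                  N * q ^ 3 * (5.3 * |m| + 5.3 * |m|) := by gcongr
              have h6 : 0 ≤ (N : ℝ) * q ^ 3 * |m| := by positivity
              linarith
            have h5 : w ^ 4 ≤ (12 * (N * q ^ 3 * |m|)) ^ 4 := pow_le_pow_left₀ hw0.le h4 4
            have h6 : |m| ^ 4 ≤ 0.2 * (w * q) ^ 3 := by
              have e1 : |m| ^ 4 = m ^ 4 := by
                rw [show |m| ^ 4 = (|m| ^ 2) ^ 2 by ring, sq_abs]; ring
              have h7 : (p : ℝ) ^ 3 ≤ (1.16 * (w * q)) ^ 3 := pow_le_pow_left₀ hpr.le hpx' 3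
              rw [e1]
              have h8 : 0 < (w * q) ^ 3 := by positivity
              have h9 : (1.16 * (w * q)) ^ 3 = 1.560896 * (w * q) ^ 3 := by ring
              linarith
            have h7 : (12 * ((N : ℝ) * q ^ 3 * |m|)) ^ 4 ≤
                20736 * (N ^ 4 * q ^ 12 * (0.2 * (w * q) ^ 3)) := by
              have e1 : (12 * ((N : ℝ) * q ^ 3 * |m|)) ^ 4 = 20736 * (N ^ 4 * q ^ 12 * |m| ^ 4) := by
                ring
              rw [e1]
              gcongr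
            have h8 : w ^ 3 * w ≤ w ^ 3 * (4147.2 * (N ^ 4 * q ^ 15)) := by
              calc w ^ 3 * w = w ^ 4 := by ring
                _ ≤ _ := h5
                _ ≤ _ := h7
                _ = _ := by ring
            have h9 : w ≤ 4147.2 * (N ^ 4 * q ^ 15) := le_of_mul_le_mul_left h8 (by positivity)
            have h10 : 0 < (N : ℝ) ^ 4 * q ^ 15 := by positivity
            linarith
          · have h4 : w ≤ 188 * (N * q ^ 5) := by
              have h5 : (N : ℝ) * q ^ 3 * (5.3 * |m| + 84 * q ^ 2) ≤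
                  N * q ^ 3 * (84 * q ^ 2 + 84 * q ^ 2) := by gcongr
              have h6 : 0 ≤ (N : ℝ) * q ^ 5 := by positivity
              have h7 : (N : ℝ) * q ^ 3 * (84 * q ^ 2 + 84 * q ^ 2) = 168 * (N * q ^ 5) := by ring
              linarith
            have h5 : (N : ℝ) * q ^ 5 ≤ N ^ 4 * q ^ 15 := by
              have h6 : (N : ℝ) ≤ N ^ 4 := le_self_pow₀ hNr (by norm_num)
              have h7 : (q : ℝ) ^ 5 ≤ q ^ 15 := pow_le_pow_right₀ hq1r (by norm_num)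
              gcongr
            have h10 : 0 < (N : ℝ) ^ 4 * q ^ 15 := by positivity
            linarith
        have h3 : (w * q) ≤ 5000 * (N : ℝ) ^ 4 * q ^ 15 * q := by gcongr
        have h10 : 0 < (N : ℝ) ^ 4 * q ^ 16 := by positivity
        have h4 : 5000 * (N : ℝ) ^ 4 * q ^ 15 * q = 5000 * (N ^ 4 * q ^ 16) := by ring
        linarith
    exact_mod_cast hgoal

end Pool.Agent.LibHall
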