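import Mathlib

/-! Three integer forms attached to `(x, y)` and to a rational approximation `p / q` of `√x`,
and their size in terms of `p - q √x` and of `y - x √x`. -/

namespace Pool.Agent.LibHall

/-- `p² - x q²` -/
def M (x p q : ℤ) : ℤ := p ^ 2 - x * q ^ 2

/-- first form -/
def F (x y p q : ℤ) : ℤ := p ^ 3 - 3 * x * p * q ^ 2 + 2 * y * q ^ 3

/-- second form -/
def G (x y p q : ℤ) : ℤ := 4 * p * F x y p q - 3 * M x p q ^ 2

/-- third form -/
def R (x y p q : ℤ) : ℤ :=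
  4 * y * q ^ 3 * (6 * p ^ 2 - M x p q) - p * (24 * p ^ 4 - 40 * p ^ 2 * M x p q + 15 * M x p q ^ 2)

section forms

variable {x y p q w δ e : ℝ}

lemma m_form (hw : w ^ 2 = x) (hδ : δ = p - w * q) : p ^ 2 - x * q ^ 2 = δ * (2 * p - δ) := by
  subst hδ; subst hw; ring

lemma f_form (hw : w ^ 2 = x) (hδ : δ = p - w * q) (he : e = (y - w ^ 3) * q ^ 3) :
    p ^ 3 - 3 * x * p * q ^ 2 + 2 * y * q ^ 3 = δ ^ 2 * (3 * p - 2 * δ) + 2 * e := by
  subst hδ; subst hw; subst he; ring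

lemma g_form (hw : w ^ 2 = x) (hδ : δ = p - w * q) (he : e = (y - w ^ 3) * q ^ 3) :
    4 * p * (p ^ 3 - 3 * x * p * q ^ 2 + 2 * y * q ^ 3) - 3 * (p ^ 2 - x * q ^ 2) ^ 2 =
      δ ^ 3 * (4 * p - 3 * δ) + 8 * p * e := by
  subst hδ; subst hw; subst he; ring

lemma r_form (hw : w ^ 2 = x) (hδ : δ = p - w * q) (he : e = (y - w ^ 3) * q ^ 3) :
    4 * y * q ^ 3 * (6 * p ^ 2 - (p ^ 2 - x * q ^ 2)) -
      p * (24 * p ^ 4 - 40 * p ^ 2 * (p ^ 2 - x * q ^ 2) + 15 * (p ^ 2 - x * q ^ 2) ^ 2) =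
      δ ^ 4 * (5 * p - 4 * δ) + 4 * e * (6 * p ^ 2 - (p ^ 2 - x * q ^ 2)) := by
  subst hδ; subst hw; subst he; ring

end forms

/-- bounds for `δ` in terms of `m = δ (2 p - δ)` -/
lemma delta_bound {p m δ : ℝ} (hp : 0 < p) (hδp : δ < p) (hm : m = δ * (2 * p - δ))
    (h : |m| ≤ 5 / 9 * p ^ 2) :
    |δ| ≤ p / 3 ∧ 5 * p * |δ| ≤ 3 * |m| ∧ 3 * |m| ≤ 7 * p * |δ| := by
  have h0 : 0 < 2 * p - δ := by linarith
  have h1 : |m| = |δ| * (2 * p - δ) := by rw [hm, abs_mul, abs_of_pos h0]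
  have h2 : |δ| ≤ p / 3 := by
    by_contra hcon
    push Not at hcon
    rcases le_or_gt 0 δ with h3 | h3
    · rw [abs_of_nonneg h3] at hcon h1
      nlinarith
    · rw [abs_of_neg h3] at hcon h1
      nlinarith
  refine ⟨h2, ?_, ?_⟩
  · have := neg_abs_le δ
    have := le_abs_self δ
    have := abs_nonneg δ
    nlinarith
  · have := neg_abs_le δ
    have := le_abs_self δ
    have := abs_nonneg δ
    nlinarith

/-- from a lower bound for `(y - w³) q³` to one for `y² - x³` -/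
lemma k_bound {x y q w e E : ℝ} (hy : 0 ≤ y) (hw0 : 0 < w) (hw : w ^ 2 = x) (hq : 0 < q)
    (he : e = (y - w ^ 3) * q ^ 3) (h : E ≤ |e|) : w ^ 3 * E / q ^ 3 ≤ |y ^ 2 - x ^ 3| := by
  have e1 : y ^ 2 - x ^ 3 = (y - w ^ 3) * (y + w ^ 3) := by rw [← hw]; ring
  have hw3 : 0 < w ^ 3 := by positivity
  have hq3 : 0 < q ^ 3 := by positivity
  rw [e1, abs_mul, abs_of_pos (by positivity : 0 < y + w ^ 3), div_le_iff₀ hq3]
  rw [he, abs_mul, abs_of_pos hq3] at h
  have h1 : 0 ≤ |y - w ^ 3| := abs_nonneg _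
  calc w ^ 3 * E ≤ w ^ 3 * (|y - w ^ 3| * q ^ 3) := by gcongr
    _ = |y - w ^ 3| * w ^ 3 * q ^ 3 := by ring
    _ ≤ |y - w ^ 3| * (y + w ^ 3) * q ^ 3 := by
        gcongr
        linarith

lemma coprime_M {x p q : ℤ} (h : IsCoprime p q) : IsCoprime (M x p q) q := by
  unfold M
  have h1 : IsCoprime (p ^ 2) q := h.pow_left
  have h2 : p ^ 2 - x * q ^ 2 = p ^ 2 + q * (-(x * q)) := by ring
  rw [h2]
  exact IsCoprime.add_mul_left_left h1 _

lemma one_of_dvd {a q : ℤ} (hq : 0 < q) (h : IsCoprime a q) (hd : q ∣ a) : q = 1 := by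
  have := h.isUnit_of_dvd' hd dvd_rfl
  rcases Int.isUnit_iff.mp this with h | h
  · exact h
  · omega

/-- when the first form vanishes -/
lemma F_zero {x y p q : ℤ} (hq : 0 < q) (hcop : IsCoprime p q) (hF : F x y p q = 0) :
    q = 1 ∧ 4 * (y ^ 2 - x ^ 3) = (M x p q) ^ 2 * (p ^ 2 - 4 * x) := by
  have h1 : q ∣ p ^ 3 := by
    refine ⟨3 * x * p * q - 2 * y * q ^ 2, ?_⟩
    unfold F at hF
    linear_combination hF
  have h3 : q = 1 := one_of_dvd hq hcop.pow_left h1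
  refine ⟨h3, ?_⟩
  subst h3
  unfold F at hF
  unfold M
  have hy : 2 * y = 3 * x * p - p ^ 3 := by linear_combination hF
  linear_combination (2 * y + (3 * x * p - p ^ 3)) * hy

/-- when the second form vanishes -/
lemma G_zero {x y p q : ℤ} (hq : 0 < q) (hcop : IsCoprime p q) (hG : G x y p q = 0) : q = 1 := by
  have h1 : G x y p q = (M x p q) ^ 2 + q * (4 * q * (x * M x p q - 2 * p * (x * p - y * q))) := by
    unfold G F M; ring
  have h2 : q ∣ (M x p q) ^ 2 := by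
    rw [h1] at hG
    exact ⟨-(4 * q * (x * M x p q - 2 * p * (x * p - y * q))), by linear_combination hG⟩
  exact one_of_dvd hq (coprime_M hcop).pow_left h2

/-- when the third form vanishes -/
lemma R_zero {x y p q : ℤ} (hq : 0 < q) (hcop : IsCoprime p q) (hR : R x y p q = 0) : q = 1 := by
  have h1 : R x y p q = p * (M x p q) ^ 2 +
      q * (q * (4 * y * q * (6 * p ^ 2 - M x p q) - 8 * p * M x p q * x - 24 * p * x ^ 2 * q ^ 2)) := by
    unfold R M; ring
  have h2 : q ∣ p * (M x p q) ^ 2 := by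
    rw [h1] at hR
    exact ⟨-(q * (4 * y * q * (6 * p ^ 2 - M x p q) - 8 * p * M x p q * x
      - 24 * p * x ^ 2 * q ^ 2)), by linear_combination hR⟩
  exact one_of_dvd hq (hcop.mul_left (coprime_M hcop).pow_left) h2

lemma R_eq (x y p q : ℤ) :
    2 * p * R x y p q = G x y p q * (6 * p ^ 2 - M x p q) - 3 * (M x p q) ^ 3 := by
  unfold R G F M; ring

/-- the Diophantine step: the third form vanishes only if `m` is large -/
lemma no_R_zero {p m f g : ℤ} (hp : 0 < p) (hm : m ≠ 0) (h1 : 4 * p * f = g + 3 * m ^ 2)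
    (h2 : g * (6 * p ^ 2 - m) = 3 * m ^ 3) (h3 : 8 * m ^ 4 ≤ p ^ 3) : False := by
  have hfm : 2 * f * m = 3 * g * p := by
    have : 2 * p * (2 * f * m - 3 * g * p) = 0 := by linear_combination m * h1 - h2
    rcases mul_eq_zero.mp this with h | h
    · omega
    · linarith
  have hgpos : 0 < Int.gcd p m := Int.gcd_pos_of_ne_zero_left _ hp.ne'
  obtain ⟨P, N, hPN, hP, hN⟩ := Int.exists_gcd_one hgpos
  set d : ℤ := (Int.gcd p m : ℤ) with hd
  have hd0 : 0 < d := Int.natCast_pos.mpr hgpos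
  have hcop : IsCoprime P N := Int.isCoprime_iff_gcd_eq_one.mpr hPN
  have hP0 : 0 < P := by
    by_contra hcon
    push Not at hcon
    nlinarith
  have hN0 : N ≠ 0 := by
    rintro rfl
    exact hm (by rw [hN]; ring)
  have hfN : 2 * f * N = 3 * g * P := by
    have : d * (2 * f * N - 3 * g * P) = 0 := by
      rw [hP, hN] at hfm
      linear_combination hfm
    rcases mul_eq_zero.mp this with h | h
    · omega
    · linarith
  have hdvd : P ∣ 2 * f := by
    have : P ∣ 2 * f * N := ⟨3 * g, by linear_combination hfN⟩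
    exact hcop.dvd_of_dvd_mul_right this
  obtain ⟨c, hc⟩ := hdvd
  have hcN : c * N = 3 * g := by
    have : P * (c * N - 3 * g) = 0 := by linear_combination hfN - N * hc
    rcases mul_eq_zero.mp this with h | h
    · omega
    · linarith
  have key : c * (6 * d * P ^ 2 - N) = 9 * d ^ 2 * N ^ 2 := by
    rw [hP, hN] at h1
    linear_combination 3 * h1 - 6 * d * P * hc - hcN
  -- size of `m`
  have hm1 : 1 ≤ |m| := Int.one_le_abs hm
  have hmp : |m| ≤ p := by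
    by_contra hcon
    push Not at hcon
    have h4 : m ^ 4 = |m| ^ 4 := by rw [← abs_pow]; exact (abs_of_nonneg (by positivity)).symm
    have h5 : p ^ 3 ≤ |m| ^ 3 := pow_le_pow_left₀ hp.le hcon.le 3
    have h6 : |m| ^ 3 * 1 ≤ |m| ^ 3 * |m| := by gcongr
    have h7 : 0 < |m| ^ 3 := by positivity
    nlinarith
  have hNP : |N| ≤ P := by
    rw [hP, hN, abs_mul, abs_of_pos hd0] at hmp
    exact le_of_mul_le_mul_right hmp hd0
  have hN1 : 1 ≤ |N| := Int.one_le_abs hN0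
  have hPd : P ≤ d * P ^ 2 := by nlinarith [mul_pos hd0 hP0]
  have hpos : 5 * d * P ^ 2 ≤ 6 * d * P ^ 2 - N := by
    have := le_abs_self N
    nlinarith
  have h6 : 0 < 6 * d * P ^ 2 - N := lt_of_lt_of_le (by positivity) hpos
  have hc0 : 0 < c := by
    have h4 : 0 < c * (6 * d * P ^ 2 - N) := by rw [key]; positivity
    exact pos_of_mul_pos_left h4 h6.le
  have hu : 5 * P ^ 2 * c ≤ 9 * d * N ^ 2 := by
    have h4 : c * (5 * d * P ^ 2) ≤ 9 * d ^ 2 * N ^ 2 := by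
      rw [← key]; exact mul_le_mul_of_nonneg_left hpos hc0.le
    have h5 : d * (5 * P ^ 2 * c) ≤ d * (9 * d * N ^ 2) := by linarith
    exact le_of_mul_le_mul_left h5 hd0
  -- first divisibility
  have hA : d ≤ c * |N| := by
    have h4 : d ∣ c * N := ⟨6 * P ^ 2 * c - 9 * d * N ^ 2, by linear_combination -key⟩
    have h5 : |c * N| = c * |N| := by rw [abs_mul, abs_of_pos hc0]
    rw [← h5]
    exact Int.le_of_dvd (by rw [h5]; positivity) ((dvd_abs _ _).mpr h4)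
  -- second divisibility
  have hB : |N| ≤ 6 * d * c := by
    have h4 : N ∣ 6 * d * c * P ^ 2 := ⟨9 * d ^ 2 * N + c, by linear_combination key⟩
    have h5 : N ∣ 6 * d * c := (hcop.symm.pow_right).dvd_of_dvd_mul_right h4
    exact Int.le_of_dvd (by positivity) ((abs_dvd _ _).mpr h5)
  have hNsq : N ^ 2 = |N| ^ 2 := (sq_abs N).symm
  set n := |N| with hn
  have hC : 5 * P ^ 2 ≤ 9 * n ^ 3 := by
    have h4 : d * (5 * P ^ 2) ≤ d * (9 * n ^ 3) := by
      calc d * (5 * P ^ 2) ≤ (c * n) * (5 * P ^ 2) := by gcongr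
        _ = (5 * P ^ 2 * c) * n := by ring
        _ ≤ (9 * d * N ^ 2) * n := by gcongr
        _ = d * (9 * n ^ 3) := by rw [hNsq]; ring
    exact le_of_mul_le_mul_left h4 hd0
  have hD : 5 * P ^ 2 ≤ 54 * d ^ 2 * n := by
    have h4 : n * (5 * P ^ 2) ≤ n * (54 * d ^ 2 * n) := by
      calc n * (5 * P ^ 2) ≤ (6 * d * c) * (5 * P ^ 2) := by gcongr
        _ = 6 * d * (5 * P ^ 2 * c) := by ring
        _ ≤ 6 * d * (9 * d * N ^ 2) := by gcongr
        _ = n * (54 * d ^ 2 * n) := by rw [hNsq]; ring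
    exact le_of_mul_le_mul_left h4 (by omega)
  have hE : 8 * d * n ^ 4 ≤ P ^ 3 := by
    have h4 : m ^ 4 = (d * n) ^ 4 := by
      rw [hN, mul_pow, mul_pow, show N ^ 4 = (N ^ 2) ^ 2 by ring, hNsq]; ring
    rw [h4, hP] at h3
    have h5 : d ^ 3 * (8 * d * n ^ 4) ≤ d ^ 3 * P ^ 3 := by linarith
    exact le_of_mul_le_mul_left h5 (by positivity)
  have hF : (8 * d * n ^ 4) ^ 2 ≤ (P ^ 3) ^ 2 := pow_le_pow_left₀ (by positivity) hE 2
  have hG : (5 * P ^ 2) * ((5 * P ^ 2) * (5 * P ^ 2)) ≤ (54 * d ^ 2 * n) * ((9 * n ^ 3) * (9 * n ^ 3)) := by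
    gcongr
  have hH : (54 * d ^ 2 * n) * ((9 * n ^ 3) * (9 * n ^ 3)) * 1 ≤
      (54 * d ^ 2 * n) * ((9 * n ^ 3) * (9 * n ^ 3)) * n := by gcongr
  have hI : 0 < P ^ 6 := by positivity
  nlinarith

end Pool.Agent.LibHall
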