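import Pool.Agent.LibHall.Near

/-! Two values of `x` with small `|y² - x³|` cannot be close. -/

namespace Pool.Agent.LibHall

/-- deviation of `y` from `w³` -/
lemma eps_bound {x y w K : ℝ} (hy : 0 ≤ y) (hw0 : 0 < w) (hw : w ^ 2 = x)
    (h : |y ^ 2 - x ^ 3| ≤ K) : |y - w ^ 3| * w ^ 3 ≤ K := by
  have e1 : y ^ 2 - x ^ 3 = (y - w ^ 3) * (y + w ^ 3) := by rw [← hw]; ring
  have hw3 : 0 < w ^ 3 := by positivity
  rw [e1, abs_mul, abs_of_pos (by positivity : 0 < y + w ^ 3)] at h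
  refine le_trans ?_ h
  gcongr
  linarith

/-- the real estimate -/
lemma gap_real {x₁ x₂ y₁ y₂ w₁ w₂ d K : ℝ} (hw₁ : 0 < w₁) (hw₂ : 0 < w₂) (h1 : w₁ ^ 2 = x₁)
    (h2 : w₂ ^ 2 = x₂) (hd : x₂ = x₁ + d) (hd1 : 1 ≤ d) (hd4 : d ^ 4 ≤ x₁) (hy₁ : 0 ≤ y₁)
    (hy₂ : 0 ≤ y₂) (hk₁ : |y₁ ^ 2 - x₁ ^ 3| ≤ K) (hk₂ : |y₂ ^ 2 - x₂ ^ 3| ≤ K)
    (hK : 140 * (d * K) < x₁) :
    |9 * d ^ 2 * (x₁ + x₂) - 8 * (y₂ - y₁) ^ 2| < 1 := by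
  have hx1 : 1 ≤ x₁ := (one_le_pow₀ hd1).trans hd4
  have hw1 : 1 ≤ w₁ := by
    by_contra hcon
    push Not at hcon
    nlinarith
  have hK0 : 0 ≤ K := (abs_nonneg _).trans hk₁
  have hKw : 140 * (d * K) < w₁ ^ 2 := by rw [h1]; exact hK
  have hlt : w₁ < w₂ := by
    have : w₁ ^ 2 < w₂ ^ 2 := by rw [h1, h2]; linarith
    exact (sq_lt_sq₀ hw₁.le hw₂.le).mp this
  obtain ⟨s, hs⟩ : ∃ s : ℝ, s = w₁ + w₂ := ⟨_, rfl⟩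
  obtain ⟨δ, hδ⟩ : ∃ δ : ℝ, δ = w₂ - w₁ := ⟨_, rfl⟩
  have hsδ : s * δ = d := by
    rw [hs, hδ]
    have : (w₁ + w₂) * (w₂ - w₁) = w₂ ^ 2 - w₁ ^ 2 := by ring
    rw [this, h1, h2, hd]; ring
  have hδ0 : 0 < δ := by rw [hδ]; linarith
  have hs0 : 2 * w₁ ≤ s := by rw [hs]; linarith
  have hspos : 0 < s := by linarith
  have hdw : d ≤ w₁ := by
    have h3 : d ^ 2 ≤ w₁ ^ 2 := by
      rw [h1]
      refine le_trans ?_ hd4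
      exact pow_le_pow_right₀ hd1 (by norm_num)
    exact (sq_le_sq₀ (by linarith) hw₁.le).mp h3
  have hδ1 : 2 * δ ≤ 1 := by
    have h3 : 2 * w₁ * δ ≤ s * δ := by gcongr
    rw [hsδ] at h3
    have h4 : w₁ * (2 * δ) ≤ w₁ * 1 := by linarith
    exact le_of_mul_le_mul_left h4 hw₁
  have hs1 : s ≤ 2.5 * w₁ := by
    have : w₂ = w₁ + δ := by rw [hδ]; ring
    rw [hs, this]; linarith
  have hdd : d ^ 2 ≤ w₁ := by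
    have h3 : (d ^ 2) ^ 2 ≤ w₁ ^ 2 := by
      rw [h1]
      calc (d ^ 2) ^ 2 = d ^ 4 := by ring
        _ ≤ x₁ := hd4
    exact (sq_le_sq₀ (by positivity) hw₁.le).mp h3
  -- errors
  obtain ⟨e₁, he₁⟩ : ∃ e : ℝ, e = y₁ - w₁ ^ 3 := ⟨_, rfl⟩
  obtain ⟨e₂, he₂⟩ : ∃ e : ℝ, e = y₂ - w₂ ^ 3 := ⟨_, rfl⟩
  have hb₁ : |e₁| * w₁ ^ 3 ≤ K := by rw [he₁]; exact eps_bound hy₁ hw₁ h1 hk₁
  have hb₂ : |e₂| * w₁ ^ 3 ≤ K := by
    have h3 := eps_bound hy₂ hw₂ h2 hk₂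
    rw [← he₂] at h3
    refine le_trans ?_ h3
    gcongr
  obtain ⟨E, hE⟩ : ∃ E : ℝ, E = e₂ - e₁ := ⟨_, rfl⟩
  have hEb : |E| * w₁ ^ 3 ≤ 2 * K := by
    have h3 : |E| ≤ |e₂| + |e₁| := by rw [hE]; exact abs_sub _ _
    have h4 : |E| * w₁ ^ 3 ≤ (|e₂| + |e₁|) * w₁ ^ 3 := by gcongr
    linarith
  obtain ⟨D, hD⟩ : ∃ D : ℝ, D = w₂ ^ 3 - w₁ ^ 3 := ⟨_, rfl⟩
  have hDe : 4 * D = δ * (3 * s ^ 2 + δ ^ 2) := by rw [hD, hs, hδ]; ring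
  have hD0 : 0 < D := by
    have : 0 < δ * (3 * s ^ 2 + δ ^ 2) := by positivity
    linarith
  have hDb : D ≤ 2.5 * (d * w₁) := by
    have h3 : δ ^ 2 ≤ s ^ 2 := by
      apply pow_le_pow_left₀ hδ0.le
      linarith
    have h4 : δ * (3 * s ^ 2 + δ ^ 2) ≤ δ * (4 * s ^ 2) := by gcongr; linarith
    have h5 : δ * (4 * s ^ 2) = 4 * (d * s) := by rw [← hsδ]; ring
    have h6 : d * s ≤ d * (2.5 * w₁) := by gcongr
    linarith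
  have hyy : y₂ - y₁ = D + E := by rw [hD, hE, he₁, he₂]; ring
  have hJ : 9 * d ^ 2 * (x₁ + x₂) - 8 * (y₂ - y₁) ^ 2 =
      δ ^ 4 * (3 * s ^ 2 - δ ^ 2) / 2 - 16 * D * E - 8 * E ^ 2 := by
    have h3 : x₁ + x₂ = (s ^ 2 + δ ^ 2) / 2 := by rw [← h1, ← h2, hs, hδ]; ring
    rw [hyy, h3, ← hsδ]
    have h4 : D = δ * (3 * s ^ 2 + δ ^ 2) / 4 := by linarith
    rw [h4]; ring
  -- main term
  have hmain1 : 0 ≤ δ ^ 4 * (3 * s ^ 2 - δ ^ 2) / 2 := by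
    have h3 : δ ^ 2 ≤ s ^ 2 := pow_le_pow_left₀ hδ0.le (by linarith) 2
    have : 0 ≤ 3 * s ^ 2 - δ ^ 2 := by nlinarith [sq_nonneg s]
    positivity
  have hmain2 : δ ^ 4 * (3 * s ^ 2 - δ ^ 2) / 2 ≤ 3 / 8 := by
    have h3 : δ ^ 4 * (3 * s ^ 2 - δ ^ 2) ≤ δ ^ 4 * (3 * s ^ 2) := by
      gcongr
      linarith [sq_nonneg δ]
    have h4 : (2 * w₁) ^ 2 * (δ ^ 4 * s ^ 2) ≤ s ^ 2 * (δ ^ 4 * s ^ 2) := by gcongr
    have h5 : s ^ 2 * (δ ^ 4 * s ^ 2) = d ^ 4 := by rw [← hsδ]; ring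
    have h6 : w₁ ^ 2 * (4 * (δ ^ 4 * s ^ 2)) ≤ w₁ ^ 2 * 1 := by
      rw [h5] at h4
      rw [h1]
      have : (2 * w₁) ^ 2 = 4 * x₁ := by rw [← h1]; ring
      rw [this] at h4
      linarith
    have h7 : 4 * (δ ^ 4 * s ^ 2) ≤ 1 := le_of_mul_le_mul_left h6 (by positivity)
    linarith
  -- error terms
  have herr1 : |16 * D * E| ≤ 80 / 140 := by
    rw [abs_mul, abs_of_pos (by positivity : 0 < 16 * D)]
    have h3 : w₁ ^ 3 * (16 * D * |E|) ≤ w₁ ^ 3 * (80 / 140) := by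
      calc w₁ ^ 3 * (16 * D * |E|) = 16 * D * (|E| * w₁ ^ 3) := by ring
        _ ≤ 16 * (2.5 * (d * w₁)) * (2 * K) := by gcongr
        _ = 80 / 140 * w₁ * (140 * (d * K)) := by ring
        _ ≤ 80 / 140 * w₁ * w₁ ^ 2 := by gcongr
        _ = w₁ ^ 3 * (80 / 140) := by ring
    exact le_of_mul_le_mul_left h3 (by positivity)
  have herr2 : 8 * E ^ 2 ≤ 1 / 100 := by
    have h3 : |E| ≤ 1 / 30 := by
      have h4 : 140 * K ≤ w₁ ^ 2 := by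
        have : 140 * (1 * K) ≤ 140 * (d * K) := by gcongr
        linarith
      have h5 : w₁ ^ 2 * 1 ≤ w₁ ^ 2 * w₁ := by gcongr
      have h6 : w₁ ^ 3 * |E| ≤ w₁ ^ 3 * (1 / 30) := by nlinarith
      exact le_of_mul_le_mul_left h6 (by positivity)
    have h4 : |E| ^ 2 ≤ (1 / 30) ^ 2 := pow_le_pow_left₀ (abs_nonneg _) h3 2
    rw [sq_abs] at h4
    linarith
  rw [hJ]
  have h3 := abs_le.mp herr1
  have h4 := sq_nonneg E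
  rw [abs_lt]
  constructor <;> linarith [h3.1, h3.2]

/-- Gap principle. -/
theorem gap {x₁ x₂ y₁ y₂ K : ℤ} (hx₁ : 0 < x₁) (hlt : x₁ < x₂) (hd4 : (x₂ - x₁) ^ 4 ≤ x₁)
    (hy₁ : 0 ≤ y₁) (hy₂ : 0 ≤ y₂) (hne : y₁ ^ 2 ≠ x₁ ^ 3)
    (hk₁ : |y₁ ^ 2 - x₁ ^ 3| ≤ K) (hk₂ : |y₂ ^ 2 - x₂ ^ 3| ≤ K) :
    x₁ ≤ 140 * (x₂ - x₁) * K := by
  by_contra hcon
  push Not at hcon
  obtain ⟨d, hd⟩ : ∃ d : ℤ, d = x₂ - x₁ := ⟨_, rfl⟩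
  have hd1 : 1 ≤ d := by omega
  rw [← hd] at hd4 hcon
  have hx2 : x₂ = x₁ + d := by omega
  have hK1 : 1 ≤ K := (Int.one_le_abs (sub_ne_zero.mpr hne)).trans hk₁
  have hx₁r : (0 : ℝ) < x₁ := by exact_mod_cast hx₁
  have hx₂r : (0 : ℝ) < x₂ := by
    have : 0 < x₂ := by omega
    exact_mod_cast this
  have hr := gap_real (x₁ := x₁) (x₂ := x₂) (y₁ := y₁) (y₂ := y₂) (w₁ := √(x₁ : ℝ))
    (w₂ := √(x₂ : ℝ)) (d := d) (K := K) (Real.sqrt_pos.mpr hx₁r) (Real.sqrt_pos.mpr hx₂r)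
    (Real.sq_sqrt hx₁r.le) (Real.sq_sqrt hx₂r.le) (by exact_mod_cast hx2) (by exact_mod_cast hd1)
    (by exact_mod_cast hd4) (by exact_mod_cast hy₁) (by exact_mod_cast hy₂)
    (by exact_mod_cast hk₁) (by exact_mod_cast hk₂) (by
      have : 140 * (d * K) < x₁ := by linarith [hcon, (by ring : 140 * d * K = 140 * (d * K))]
      exact_mod_cast this)
  have hJ : |9 * d ^ 2 * (x₁ + x₂) - 8 * (y₂ - y₁) ^ 2| < 1 := by exact_mod_cast hr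
  have hJ0 : 9 * d ^ 2 * (x₁ + x₂) = 8 * (y₂ - y₁) ^ 2 := by
    have := Int.abs_lt_one_iff.mp hJ
    linarith
  -- `2 (x₁ + x₂)` is a square
  have h3 : (3 * d) ^ 2 * (2 * (x₁ + x₂)) = (4 * (y₂ - y₁)) ^ 2 := by linear_combination 2 * hJ0
  have h4 : 3 * d ∣ 4 * (y₂ - y₁) := by
    have : (3 * d) ^ 2 ∣ (4 * (y₂ - y₁)) ^ 2 := ⟨_, h3.symm⟩
    exact (Int.pow_dvd_pow_iff (by norm_num)).mp this
  obtain ⟨r, hr'⟩ := h4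
  have h5 : 2 * (x₁ + x₂) = r ^ 2 := by
    rw [hr'] at h3
    have h6 : (3 * d) ^ 2 * (2 * (x₁ + x₂) - r ^ 2) = 0 := by linear_combination h3
    rcases mul_eq_zero.mp h6 with h7 | h7
    · have : 0 < (3 * d) ^ 2 := by positivity
      omega
    · linarith
  have h6 : (2 : ℤ) ∣ r := by
    have : (2 : ℤ) ∣ r ^ 2 := ⟨x₁ + x₂, by linarith⟩
    exact Int.prime_two.dvd_of_dvd_pow this
  obtain ⟨t', ht'⟩ := h6
  obtain ⟨t, ht⟩ : ∃ t : ℤ, t = |t'| := ⟨_, rfl⟩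
  have h7 : x₁ + x₂ = 2 * t ^ 2 := by
    rw [ht, sq_abs]
    rw [ht'] at h5
    linarith
  have ht0 : 0 < t := by
    have : 0 ≤ t := ht ▸ abs_nonneg t'
    rcases this.lt_or_eq with h8 | h8
    · exact h8
    · rw [← h8] at h7; omega
  have hm : 2 * M x₁ t 1 = d := by unfold M; linarith
  have hd2 : d ^ 2 ≤ t := by
    have h8 : (d ^ 2) ^ 2 ≤ t ^ 2 := by
      have : x₁ ≤ t ^ 2 := by omega
      calc (d ^ 2) ^ 2 = d ^ 4 := by ring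
        _ ≤ x₁ := hd4
        _ ≤ t ^ 2 := this
    exact (sq_le_sq₀ (by positivity) ht0.le).mp h8
  have h8 := case_two hx₁ ht0 one_pos hy₁ isCoprime_one_right hne (by
    have : (2 * M x₁ t 1) ^ 2 = d ^ 2 := by rw [hm]
    nlinarith [sq_nonneg d])
  have hkr : |(y₁ : ℝ) ^ 2 - (x₁ : ℝ) ^ 3| ≤ K := by exact_mod_cast hk₁
  have hKx : 140 * (K : ℝ) < x₁ := by
    have h9 : 140 * 1 * K ≤ 140 * d * K := by gcongr
    have : 140 * K < x₁ := by linarith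
    exact_mod_cast this
  have h9 := h8.trans hkr
  have hw1 : (1 : ℝ) ≤ √(x₁ : ℝ) := by
    apply Real.one_le_sqrt.mpr
    exact_mod_cast hx₁
  have hw2 : √(x₁ : ℝ) ^ 2 = x₁ := Real.sq_sqrt hx₁r.le
  rcases min_le_iff.mp h9 with h10 | h10
  · linarith
  · rw [div_le_iff₀ (by norm_num)] at h10
    have h11 : √(x₁ : ℝ) ^ 3 = x₁ * √(x₁ : ℝ) := by
      calc √(x₁ : ℝ) ^ 3 = √(x₁ : ℝ) ^ 2 * √(x₁ : ℝ) := by ring
        _ = _ := by rw [hw2]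
    have h12 : (x₁ : ℝ) * 1 ≤ x₁ * √(x₁ : ℝ) := by gcongr
    have h13 : (0 : ℝ) < K := by exact_mod_cast (by omega : 0 < K)
    push_cast at h10
    linarith

end Pool.Agent.LibHall
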