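import Pool.Agent.LibHall.Near

/-! Integral points of `y² = x³ + A x + B` with `x` near the square of `p / q`. -/

namespace Pool.Agent.LibHall

/-- second form with the linear coefficient taken into account -/
def GA (A x y p q : ℤ) : ℤ := G x y p q - 4 * A * q ^ 4

lemma GA_zero {A x y p q : ℤ} (hq : 0 < q) (hcop : IsCoprime p q) (hG : GA A x y p q = 0) :
    q = 1 := by
  have h1 : GA A x y p q = (M x p q) ^ 2 +
      q * (4 * q * (x * M x p q - 2 * p * (x * p - y * q)) - 4 * A * q ^ 3) := by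
    unfold GA G F M; ring
  have h2 : q ∣ (M x p q) ^ 2 := by
    rw [h1] at hG
    exact ⟨-(4 * q * (x * M x p q - 2 * p * (x * p - y * q)) - 4 * A * q ^ 3),
      by linear_combination hG⟩
  exact one_of_dvd hq (coprime_M hcop).pow_left h2

/-- the basic identity (case `q = 1`) -/
lemma curve_one {A B x y p : ℤ} (h : y ^ 2 = x ^ 3 + A * x + B) :
    8 * B = (2 * p ^ 2 - 3 * M x p 1) * GA A x y p 1 - (M x p 1) ^ 3 - 4 * A * M x p 1
      + 2 * (F x y p 1) ^ 2 := by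
  unfold GA G F M
  linear_combination -8 * h

/-- the case where the second form vanishes -/
lemma case_zero {A B x y p N : ℤ} (hp : 0 < p) (hN : 1 ≤ N) (hA : |A| ≤ N) (hB : |B| ≤ N)
    (hns : 4 * A ^ 3 + 27 * B ^ 2 ≠ 0) (hc : y ^ 2 = x ^ 3 + A * x + B)
    (hM : 2 * |M x p 1| ^ 3 ≤ p ^ 2) (hG : GA A x y p 1 = 0) : p ≤ 8 * N := by
  obtain ⟨m, hm⟩ : ∃ m : ℤ, m = M x p 1 := ⟨_, rfl⟩
  obtain ⟨f, hf⟩ : ∃ f : ℤ, f = F x y p 1 := ⟨_, rfl⟩
  have h1 : 4 * p * f = 3 * m ^ 2 + 4 * A := by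
    have h2 : GA A x y p 1 = 4 * p * f - 3 * m ^ 2 - 4 * A := by
      rw [hm, hf]; unfold GA G; ring
    linarith
  have h2 : 8 * B = - m ^ 3 - 4 * A * m + 2 * f ^ 2 := by
    have h3 := curve_one (p := p) hc
    rw [hG, ← hm, ← hf] at h3
    linarith
  rw [← hm] at hM
  have hA' := abs_le.mp hA
  have hB' := abs_le.mp hB
  by_contra hcon
  push Not at hcon
  have hf0 : f ≠ 0 := by
    rintro rfl
    apply hns
    have h3 : 4 * A = -3 * m ^ 2 := by linarith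
    have h4 : 8 * B = 2 * m ^ 3 := by linear_combination h2 - m * h3
    have h6 : 64 * (4 * A ^ 3 + 27 * B ^ 2) = 4 * (4 * A) ^ 3 + 27 * (8 * B) ^ 2 := by ring
    rw [h3, h4] at h6
    have h7 : 64 * (4 * A ^ 3 + 27 * B ^ 2) = 0 := by rw [h6]; ring
    omega
  have hf1 : 1 ≤ f := by
    by_contra hc2
    have h3 : f ≤ -1 := by omega
    have h4 : 4 * p * f ≤ 4 * p * (-1) := by gcongr
    have h5 := sq_nonneg m
    linarith
  have h3 : 7 * p ≤ 6 * m ^ 2 := by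
    have h4 : 4 * p * 1 ≤ 4 * p * f := by gcongr
    linarith
  have h4 : 7 * (p * f) ≤ 6 * m ^ 2 := by linarith
  obtain ⟨a, ha⟩ : ∃ a : ℤ, a = |m| := ⟨_, rfl⟩
  have ha0 : 0 ≤ a := ha ▸ abs_nonneg m
  have ham : m ^ 2 = a ^ 2 := by rw [ha, sq_abs]
  rw [← ha] at hM
  rw [ham] at h3 h4
  -- `49 f² ≤ 18 a`
  have h5 : 49 * f ^ 2 ≤ 18 * a := by
    have h6 : (7 * (p * f)) ^ 2 ≤ (6 * a ^ 2) ^ 2 := pow_le_pow_left₀ (by positivity) h4 2
    have h7 : p ^ 2 * (49 * f ^ 2) ≤ p ^ 2 * (18 * a) := by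
      calc p ^ 2 * (49 * f ^ 2) = (7 * (p * f)) ^ 2 := by ring
        _ ≤ (6 * a ^ 2) ^ 2 := h6
        _ = (2 * a ^ 3) * (18 * a) := by ring
        _ ≤ p ^ 2 * (18 * a) := by gcongr
    exact le_of_mul_le_mul_left h7 (by positivity)
  -- size of `m³ + 4 A m`
  have h6 : |m ^ 3 + 4 * A * m| = a * |m ^ 2 + 4 * A| := by
    rw [ha, ← abs_mul]; congr 1; ring
  have h7 : 4 * a ^ 2 ≤ 7 * |m ^ 2 + 4 * A| := by
    have h8 := le_abs_self (m ^ 2 + 4 * A)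
    rw [ham] at h8 ⊢
    linarith
  have h8 : |m ^ 3 + 4 * A * m| ≤ 2 * f ^ 2 + 8 * N := by
    have h9 : m ^ 3 + 4 * A * m = 2 * f ^ 2 - 8 * B := by linarith
    rw [h9]
    refine (abs_sub _ _).trans ?_
    rw [abs_mul 8 B, abs_of_nonneg (by positivity : 0 ≤ 2 * f ^ 2)]
    have : |(8 : ℤ)| = 8 := by norm_num
    rw [this]
    linarith
  have h9 : 4 * a ^ 3 ≤ 7 * (2 * f ^ 2 + 8 * N) := by
    calc 4 * a ^ 3 = a * (4 * a ^ 2) := by ring
      _ ≤ a * (7 * |m ^ 2 + 4 * A|) := by gcongr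
      _ = 7 * |m ^ 3 + 4 * A * m| := by rw [h6]; ring
      _ ≤ _ := by gcongr
  have h10 : 4 ≤ a := by
    by_contra hc3
    have : a ≤ 3 := by omega
    have : a ^ 2 ≤ 3 ^ 2 := pow_le_pow_left₀ ha0 this 2
    linarith
  have h11 : a * (7 * p) ≤ a * (6 * a ^ 2) := by gcongr
  have h12 : 4 * (7 * p) ≤ a * (7 * p) := by gcongr
  nlinarith

/-- size of the second form -/
lemma ga_bound {A B x y p q N w δ ε m : ℝ} (hw0 : 0 < w) (hw : w ^ 2 = x) (hx1 : 1 ≤ x)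
    (hN : 1 ≤ N) (hA : |A| ≤ N) (hB : |B| ≤ N) (hNx : N ≤ x) (hp : 0 < p) (hq : 0 < q) (hy : 0 ≤ y)
    (hδ : δ = p - w * q) (hε : ε = y - w ^ 3) (hc : y ^ 2 = x ^ 3 + A * x + B)
    (hd : 5 * p * |δ| ≤ 3 * |m|) (_hd1 : |δ| ≤ p / 3)
    (hm : 2 * |m| ^ 3 ≤ p ^ 2) (hpx : p ≤ 1.42 * (w * q)) (hpx' : w * q ≤ 1.23 * p) :
    w ^ 3 * |4 * p * (p ^ 3 - 3 * x * p * q ^ 2 + 2 * y * q ^ 3) - 3 * (p ^ 2 - x * q ^ 2) ^ 2
      - 4 * A * q ^ 4| ≤ 0.54 * w ^ 3 + 4 * N * w * (0.74 * |m| * q ^ 2 + 7.1 * q ^ 4) := by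
  have hw3 : 0 < w ^ 3 := by positivity
  have hε1 : ε * (y + w ^ 3) = A * w ^ 2 + B := by
    rw [hε, hw]
    have : (y - w ^ 3) * (y + w ^ 3) = y ^ 2 - (w ^ 2) ^ 3 := by ring
    rw [this, hw, hc]; ring
  have hε2 : w * |ε| ≤ 2 * N := by
    have h1 : |ε| * (y + w ^ 3) = |A * w ^ 2 + B| := by
      rw [← hε1, abs_mul, abs_of_pos (by positivity : 0 < y + w ^ 3)]
    have h2 : |A * w ^ 2 + B| ≤ 2 * N * w ^ 2 := by
      refine (abs_add_le _ _).trans ?_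
      rw [abs_mul, abs_of_nonneg (by positivity : 0 ≤ w ^ 2)]
      have h3 : |A| * w ^ 2 ≤ N * w ^ 2 := by gcongr
      have h4 : N * 1 ≤ N * w ^ 2 := by gcongr; rw [hw]; exact hx1
      linarith
    have h3 : |ε| * w ^ 3 ≤ |ε| * (y + w ^ 3) := by
      gcongr; linarith
    have h4 : w ^ 2 * (w * |ε|) ≤ w ^ 2 * (2 * N) := by linarith
    exact le_of_mul_le_mul_left h4 (by positivity)
  have hε3 : 2 * w ^ 3 * ε = A * w ^ 2 + B - ε ^ 2 := by
    have : y = w ^ 3 + ε := by rw [hε]; ring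
    rw [this] at hε1
    linarith
  have hform : w ^ 3 * (4 * p * (p ^ 3 - 3 * x * p * q ^ 2 + 2 * y * q ^ 3)
      - 3 * (p ^ 2 - x * q ^ 2) ^ 2 - 4 * A * q ^ 4) = w ^ 3 * (δ ^ 3 * (4 * p - 3 * δ)) +
      4 * q ^ 3 * (A * δ * w ^ 2 + p * (B - ε ^ 2)) := by
    have h1 := g_form (x := x) (y := y) (p := p) (q := q) hw hδ (e := (y - w ^ 3) * q ^ 3) rfl
    rw [h1, ← hε]
    have h2 : A * δ * w ^ 2 = A * p * w ^ 2 - A * q * w ^ 3 := by rw [hδ]; ring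
    rw [h2]
    linear_combination (4 * p * q ^ 3) * hε3
  have h1 := congrArg abs hform
  rw [abs_mul, abs_of_pos hw3] at h1
  rw [h1]
  have h5 := neg_abs_le δ
  have h6 := le_abs_self δ
  have hmain : |δ ^ 3 * (4 * p - 3 * δ)| ≤ 0.54 := by
    have h3 : (5 * p * |δ|) ^ 3 ≤ (3 * |m|) ^ 3 := pow_le_pow_left₀ (by positivity) hd 3
    rw [mul_pow, mul_pow, mul_pow] at h3
    have h4 : 250 * (p : ℝ) * |δ| ^ 3 ≤ 27 := by
      have : (p : ℝ) ^ 2 * (250 * p * |δ| ^ 3) ≤ p ^ 2 * 27 := by nlinarith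
      exact le_of_mul_le_mul_left this (by positivity)
    rw [abs_mul, abs_pow, abs_of_nonneg (by linarith : 0 ≤ 4 * (p : ℝ) - 3 * δ)]
    have h7 : |δ| ^ 3 * (4 * p - 3 * δ) ≤ |δ| ^ 3 * (5 * p) := by
      gcongr
      linarith
    linarith
  have hδ1 : w * q * |δ| ≤ 0.738 * |m| := by
    have h2 : w * q * |δ| ≤ 1.23 * p * |δ| := by gcongr
    linarith
  have hsec : |4 * q ^ 3 * (A * δ * w ^ 2 + p * (B - ε ^ 2))| ≤
      4 * N * w * (0.74 * |m| * q ^ 2 + 7.1 * q ^ 4) := by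
    rw [abs_mul, abs_of_pos (by positivity : 0 < 4 * q ^ 3)]
    have h2 : |A * δ * w ^ 2| ≤ N * |δ| * w ^ 2 := by
      rw [abs_mul, abs_mul, abs_of_nonneg (by positivity : 0 ≤ w ^ 2)]
      gcongr
    have h3 : ε ^ 2 ≤ 4 * N := by
      have h4 : (w * |ε|) ^ 2 ≤ (2 * N) ^ 2 := pow_le_pow_left₀ (by positivity) hε2 2
      rw [mul_pow, sq_abs, hw] at h4
      have h7 : N * ε ^ 2 ≤ x * ε ^ 2 := by gcongr
      have h8 : N * ε ^ 2 ≤ N * (4 * N) := by linarith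
      exact le_of_mul_le_mul_left h8 (by linarith)
    have h4 : |p * (B - ε ^ 2)| ≤ p * (5 * N) := by
      rw [abs_mul, abs_of_pos hp]
      gcongr
      refine (abs_sub _ _).trans ?_
      rw [abs_of_nonneg (sq_nonneg ε)]
      linarith
    have h7 : |A * δ * w ^ 2 + p * (B - ε ^ 2)| ≤ N * |δ| * w ^ 2 + p * (5 * N) :=
      (abs_add_le _ _).trans (add_le_add h2 h4)
    have h8 : q * (N * |δ| * w ^ 2) ≤ N * w * (0.74 * |m|) := by
      calc q * (N * |δ| * w ^ 2) = N * w * (w * q * |δ|) := by ring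
        _ ≤ N * w * (0.74 * |m|) := by
          have h10 : w * q * |δ| ≤ 0.74 * |m| := by linarith [abs_nonneg m]
          exact mul_le_mul_of_nonneg_left h10 (by positivity)
    have h9 : q * (p * (5 * N)) ≤ N * w * (7.1 * q ^ 2) := by
      calc q * (p * (5 * N)) ≤ q * (1.42 * (w * q) * (5 * N)) := by gcongr
        _ = N * w * (7.1 * q ^ 2) := by ring
    calc 4 * q ^ 3 * |A * δ * w ^ 2 + p * (B - ε ^ 2)|
        ≤ 4 * q ^ 3 * (N * |δ| * w ^ 2 + p * (5 * N)) := by gcongr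
      _ = 4 * q ^ 2 * (q * (N * |δ| * w ^ 2) + q * (p * (5 * N))) := by ring
      _ ≤ 4 * q ^ 2 * (N * w * (0.74 * |m|) + N * w * (7.1 * q ^ 2)) := by gcongr
      _ = _ := by ring
  calc |w ^ 3 * (δ ^ 3 * (4 * p - 3 * δ)) + 4 * q ^ 3 * (A * δ * w ^ 2 + p * (B - ε ^ 2))|
      ≤ |w ^ 3 * (δ ^ 3 * (4 * p - 3 * δ))| + |4 * q ^ 3 * (A * δ * w ^ 2 + p * (B - ε ^ 2))| :=
        abs_add_le _ _
    _ = w ^ 3 * |δ ^ 3 * (4 * p - 3 * δ)| + |4 * q ^ 3 * (A * δ * w ^ 2 + p * (B - ε ^ 2))| := by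
        rw [abs_mul, abs_of_pos hw3]
    _ ≤ w ^ 3 * 0.54 + 4 * N * w * (0.74 * |m| * q ^ 2 + 7.1 * q ^ 4) := by gcongr
    _ = _ := by ring

/-- Integral points with `x` near the square of `p / q`. -/
theorem lang_near {A B x y p q N : ℤ} (hx : 0 < x) (hp : 0 < p) (hq : 0 < q) (hy : 0 ≤ y)
    (hcop : IsCoprime p q) (hN : 1 ≤ N) (hA : |A| ≤ N) (hB : |B| ≤ N)
    (hns : 4 * A ^ 3 + 27 * B ^ 2 ≠ 0) (hc : y ^ 2 = x ^ 3 + A * x + B)
    (h : 2 * |M x p q| ^ 3 ≤ p ^ 2) : x ^ 2 ≤ 16384 * N ^ 3 * max N (q ^ 8) := by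
  have hN3 : 0 < N ^ 3 := by positivity
  by_cases hG : GA A x y p q = 0
  · have hq1 := GA_zero hq hcop hG
    subst hq1
    have h1 := case_zero hp hN hA hB hns hc h hG
    have h2 : 2 * x ≤ 3 * p ^ 2 := by
      have h3 : x = p ^ 2 - M x p 1 := by unfold M; ring
      have h4 := neg_abs_le (M x p 1)
      have h5 : |M x p 1| ≤ |M x p 1| ^ 3 := by
        rcases eq_or_ne (M x p 1) 0 with h0 | h0
        · rw [h0]; simp
        · exact le_self_pow₀ (Int.one_le_abs h0) (by norm_num)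
      linarith
    have h3 : p ^ 2 ≤ (8 * N) ^ 2 := pow_le_pow_left₀ hp.le h1 2
    have h4 : x ≤ 96 * N ^ 2 := by linarith
    have h5 : x ^ 2 ≤ (96 * N ^ 2) ^ 2 := pow_le_pow_left₀ hx.le h4 2
    have h6 : 16384 * N ^ 3 * N ≤ 16384 * N ^ 3 * max N (1 ^ 8) := by
      gcongr
      exact le_max_left _ _
    have h7 : 0 < N ^ 4 := by positivity
    nlinarith
  · obtain ⟨w, δ, hw0, hwx, hw2, hδ, hδp, hM⟩ := setup (x := x) (p := p) (q := q) hx hq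
    have hq8 : N ^ 3 * q ^ 8 ≤ N ^ 3 * max N (q ^ 8) := by
      gcongr
      exact le_max_right _ _
    have hq81 : 1 ≤ q ^ 8 := one_le_pow₀ (by omega)
    rcases le_or_gt x N with hxN | hxN
    · have h1 : x ^ 2 ≤ N ^ 2 := pow_le_pow_left₀ hx.le hxN 2
      have h2 : N ^ 2 * 1 ≤ N ^ 3 * q ^ 8 := by
        gcongr
        norm_num
      have h3 : 0 ≤ N ^ 3 * max N (q ^ 8) := by positivity
      linarith
    have hpr : (0 : ℝ) < p := by exact_mod_cast hp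
    have hqr : (0 : ℝ) < q := by exact_mod_cast hq
    have hyr : (0 : ℝ) ≤ y := by exact_mod_cast hy
    have hp1 : (1 : ℝ) ≤ p := by exact_mod_cast hp
    have hx1 : (1 : ℝ) ≤ x := by exact_mod_cast hx
    have hNr : (1 : ℝ) ≤ N := by exact_mod_cast hN
    have hNxr : (N : ℝ) ≤ x := by exact_mod_cast hxN.le
    obtain ⟨m, hm⟩ : ∃ m : ℝ, m = ((M x p q : ℤ) : ℝ) := ⟨_, rfl⟩
    rw [← hm] at hM
    have hr : 2 * |m| ^ 3 ≤ p ^ 2 := by
      have : ((2 * |M x p q| ^ 3 : ℤ) : ℝ) ≤ ((p ^ 2 : ℤ) : ℝ) := by exact_mod_cast h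
      push_cast at this
      rw [hm]
      exact this
    have hmm : |m| ≤ |m| ^ 3 := by
      have h1 : |M x p q| ≤ |M x p q| ^ 3 := by
        rcases eq_or_ne (M x p q) 0 with h0 | h0
        · rw [h0]; simp
        · have := Int.one_le_abs h0
          exact le_self_pow₀ this (by norm_num)
      have h2 : ((|M x p q| : ℤ) : ℝ) ≤ ((|M x p q| ^ 3 : ℤ) : ℝ) := by exact_mod_cast h1
      push_cast at h2
      rw [hm]
      exact h2
    obtain ⟨hd1, hd2, hd3⟩ := delta_bound hpr hδp hM (by nlinarith)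
    have hpe : (p : ℝ) ^ 2 = (w * q) ^ 2 + m := by rw [hM, hδ]; ring
    have hmabs := le_abs_self m
    have hmabs' := neg_abs_le m
    have hwq : 0 < w * q := by positivity
    have hpx : (p : ℝ) ≤ 1.42 * (w * q) := by
      have : (p : ℝ) ^ 2 ≤ (1.42 * (w * q)) ^ 2 := by nlinarith [sq_nonneg (w * q)]
      exact (sq_le_sq₀ hpr.le (by positivity)).mp this
    have hpx' : w * q ≤ 1.23 * p := by
      have : (w * q) ^ 2 ≤ (1.23 * (p : ℝ)) ^ 2 := by nlinarith [sq_nonneg (p : ℝ)]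
      exact (sq_le_sq₀ hwq.le (by positivity)).mp this
    have hAr : |(A : ℝ)| ≤ N := by exact_mod_cast hA
    have hBr : |(B : ℝ)| ≤ N := by exact_mod_cast hB
    have hcr : (y : ℝ) ^ 2 = x ^ 3 + A * x + B := by exact_mod_cast hc
    have hga := ga_bound hw0 hw2 hx1 hNr hAr hBr hNxr hpr hqr hyr hδ (ε := y - w ^ 3) rfl hcr
      hd2 hd1 hr hpx hpx'
    have h1 : (1 : ℝ) ≤ |4 * (p : ℝ) * (p ^ 3 - 3 * x * p * q ^ 2 + 2 * y * q ^ 3)
        - 3 * (p ^ 2 - x * q ^ 2) ^ 2 - 4 * A * q ^ 4| := by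
      have h2 := Int.one_le_abs hG
      have h3 : ((1 : ℤ) : ℝ) ≤ ((|GA A x y p q| : ℤ) : ℝ) := by exact_mod_cast h2
      unfold GA G F M at h3
      push_cast at h3
      exact h3
    have hw3 : 0 < w ^ 3 := by positivity
    have h2 : 0.46 * w ^ 2 ≤ 4 * N * (0.74 * |m| * q ^ 2 + 7.1 * q ^ 4) := by
      have h3 : w ^ 3 * 1 ≤ 0.54 * w ^ 3 + 4 * N * w * (0.74 * |m| * q ^ 2 + 7.1 * q ^ 4) :=
        le_trans (by gcongr) hga
      have h4 : w * (0.46 * w ^ 2) ≤ w * (4 * N * (0.74 * |m| * q ^ 2 + 7.1 * q ^ 4)) := by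
        linarith
      exact le_of_mul_le_mul_left h4 hw0
    -- conclude
    have hgoal : (x : ℝ) ^ 2 ≤ 16384 * ((N : ℝ) ^ 3 * q ^ 8) := by
      rcases le_or_gt (7.1 * (q : ℝ) ^ 4) (0.74 * |m| * q ^ 2) with h3 | h3
      · have h4 : w ^ 2 ≤ 12.9 * (N * |m| * q ^ 2) := by
          have h5 : 4 * (N : ℝ) * (0.74 * |m| * q ^ 2 + 7.1 * q ^ 4) ≤
              4 * N * (0.74 * |m| * q ^ 2 + 0.74 * |m| * q ^ 2) := by gcongr
          have h6 : 0 ≤ (N : ℝ) * |m| * q ^ 2 := by positivity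
          linarith
        have h5 : (w ^ 2) ^ 3 ≤ (12.9 * (N * |m| * q ^ 2)) ^ 3 :=
          pow_le_pow_left₀ (by positivity) h4 3
        have h6 : |m| ^ 3 ≤ 1.01 * (w * q) ^ 2 := by
          have h7 : (p : ℝ) ^ 2 ≤ (1.42 * (w * q)) ^ 2 := pow_le_pow_left₀ hpr.le hpx 2
          nlinarith [sq_nonneg (w * q)]
        have h7 : (12.9 * ((N : ℝ) * |m| * q ^ 2)) ^ 3 ≤
            12.9 ^ 3 * (N ^ 3 * (1.01 * (w * q) ^ 2) * q ^ 6) := by
          have : (12.9 * ((N : ℝ) * |m| * q ^ 2)) ^ 3 = 12.9 ^ 3 * (N ^ 3 * |m| ^ 3 * q ^ 6) := by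
            ring
          rw [this]
          gcongr
        have h8 : w ^ 2 * (w ^ 4) ≤ w ^ 2 * (12.9 ^ 3 * 1.01 * (N ^ 3 * q ^ 8)) := by
          calc w ^ 2 * (w ^ 4) = (w ^ 2) ^ 3 := by ring
            _ ≤ _ := h5
            _ ≤ _ := h7
            _ = _ := by ring
        have h9 : w ^ 4 ≤ 12.9 ^ 3 * 1.01 * (N ^ 3 * q ^ 8) :=
          le_of_mul_le_mul_left h8 (by positivity)
        have h10 : (x : ℝ) ^ 2 = w ^ 4 := by rw [← hw2]; ring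
        have h11 : 0 < (N : ℝ) ^ 3 * q ^ 8 := by positivity
        rw [h10]
        nlinarith
      · have h4 : w ^ 2 ≤ 123.6 * (N * q ^ 4) := by
          have h5 : 4 * (N : ℝ) * (0.74 * |m| * q ^ 2 + 7.1 * q ^ 4) ≤
              4 * N * (7.1 * q ^ 4 + 7.1 * q ^ 4) := by gcongr
          have h6 : 0 ≤ (N : ℝ) * q ^ 4 := by positivity
          linarith
        have h5 : (w ^ 2) ^ 2 ≤ (123.6 * (N * q ^ 4)) ^ 2 := pow_le_pow_left₀ (by positivity) h4 2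
        have h6 : (N : ℝ) ^ 2 * q ^ 8 ≤ N ^ 3 * q ^ 8 := by
          gcongr
          norm_num
        rw [hw2] at h5
        have h7 : (123.6 * ((N : ℝ) * q ^ 4)) ^ 2 = 123.6 ^ 2 * (N ^ 2 * q ^ 8) := by ring
        rw [h7] at h5
        have h11 : 0 < (N : ℝ) ^ 2 * q ^ 8 := by positivity
        nlinarith
    have hgi : x ^ 2 ≤ 16384 * (N ^ 3 * q ^ 8) := by exact_mod_cast hgoal
    linarith

end Pool.Agent.LibHall
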