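import Pool.Agent.LibHall.Basic

/-! Lower bounds for `|y² - x³|` when `x` is near the square of `p / q` (case `y ≥ 0`). -/

namespace Pool.Agent.LibHall

variable {x y p q : ℤ}

/-- common real data -/
lemma setup (hx : 0 < x) (hq : 0 < q) :
    ∃ w δ : ℝ, 0 < w ∧ w = √(x : ℝ) ∧ w ^ 2 = x ∧ δ = p - w * q ∧ δ < p ∧
      ((M x p q : ℤ) : ℝ) = δ * (2 * p - δ) := by
  have hxr : (0 : ℝ) < x := by exact_mod_cast hx
  have hqr : (0 : ℝ) < q := by exact_mod_cast hq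
  have hw0 : 0 < √(x : ℝ) := Real.sqrt_pos.mpr hxr
  have hw2 : √(x : ℝ) ^ 2 = x := Real.sq_sqrt hxr.le
  refine ⟨√(x : ℝ), p - √(x : ℝ) * q, hw0, rfl, hw2, rfl, ?_, ?_⟩
  · have := mul_pos hw0 hqr
    linarith
  · have := m_form (p := (p : ℝ)) (q := (q : ℝ)) hw2 rfl
    unfold M
    push_cast
    exact this

lemma M_zero (hq : 0 < q) (hcop : IsCoprime p q) (h : M x p q = 0) : q = 1 ∧ x = p ^ 2 := by
  have h1 : q = 1 := by
    have := coprime_M (x := x) hcop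
    exact one_of_dvd hq this (h ▸ dvd_zero q)
  subst h1
  unfold M at h
  exact ⟨rfl, by linarith⟩

theorem case_two (hx : 0 < x) (hp : 0 < p) (hq : 0 < q) (hy : 0 ≤ y) (hcop : IsCoprime p q)
    (hk : y ^ 2 ≠ x ^ 3) (h : 2 * (M x p q) ^ 2 ≤ p) :
    min ((x : ℝ) / 2) (√(x : ℝ) ^ 3 / (6 * q ^ 3)) ≤ |((y : ℝ) ^ 2 - x ^ 3)| := by
  obtain ⟨w, δ, hw0, hwx, hw2, hδ, hδp, hM⟩ := setup (x := x) (p := p) (q := q) hx hq
  have hpr : (0 : ℝ) < p := by exact_mod_cast hp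
  have hqr : (0 : ℝ) < q := by exact_mod_cast hq
  have hyr : (0 : ℝ) ≤ y := by exact_mod_cast hy
  have hp1 : (1 : ℝ) ≤ p := by exact_mod_cast hp
  set m : ℝ := ((M x p q : ℤ) : ℝ) with hm
  have hr : 2 * m ^ 2 ≤ p := by
    have : ((2 * (M x p q) ^ 2 : ℤ) : ℝ) ≤ ((p : ℤ) : ℝ) := by exact_mod_cast h
    push_cast at this
    exact this
  have hmm : |m| ≤ m ^ 2 := by
    have h1 : |M x p q| ≤ (M x p q) ^ 2 := by
      rcases eq_or_ne (M x p q) 0 with h0 | h0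
      · rw [h0]; simp
      · have := Int.one_le_abs h0
        rw [← sq_abs]
        nlinarith
    have h2 : ((|M x p q| : ℤ) : ℝ) ≤ (((M x p q) ^ 2 : ℤ) : ℝ) := by exact_mod_cast h1
    push_cast at h2
    exact h2
  obtain ⟨hd1, hd2, hd3⟩ := delta_bound hpr hδp hM (by nlinarith)
  rw [← hwx]
  by_cases hF : F x y p q = 0
  · -- `F = 0`
    obtain ⟨h1, h2⟩ := F_zero hq hcop hF
    refine (min_le_left _ _).trans ?_
    have hM0 : M x p q ≠ 0 := by
      intro h0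
      rw [h0] at h2
      apply hk
      linarith
    have h3 : (4 : ℝ) * ((y : ℝ) ^ 2 - x ^ 3) = m ^ 2 * ((p : ℝ) ^ 2 - 4 * x) := by
      have : ((4 * (y ^ 2 - x ^ 3) : ℤ) : ℝ) = (((M x p q) ^ 2 * (p ^ 2 - 4 * x) : ℤ) : ℝ) := by
        rw [h2]
      push_cast at this
      exact this
    have h4 : (p : ℝ) ^ 2 = x + m := by
      have : p ^ 2 = x + M x p q := by unfold M; rw [h1]; ring
      have : ((p ^ 2 : ℤ) : ℝ) = ((x + M x p q : ℤ) : ℝ) := by rw [this]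
      push_cast at this
      exact this
    have h5 : 1 ≤ m ^ 2 := by
      have : 1 ≤ (M x p q) ^ 2 := by
        have := Int.one_le_abs hM0
        rw [← sq_abs]; nlinarith
      have h' : ((1 : ℤ) : ℝ) ≤ (((M x p q) ^ 2 : ℤ) : ℝ) := by exact_mod_cast this
      push_cast at h'
      exact h'
    have h6 : |m| ≤ x := by
      have := le_abs_self m
      nlinarith
    have h7 : 2 * (x : ℝ) ≤ |(p : ℝ) ^ 2 - 4 * x| := by
      rw [h4, abs_of_neg] <;> have := le_abs_self m <;> have := neg_abs_le m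
      · linarith
      · have : (0 : ℝ) < x := by exact_mod_cast hx
        linarith
    have h8 : 4 * |(y : ℝ) ^ 2 - x ^ 3| = m ^ 2 * |(p : ℝ) ^ 2 - 4 * x| := by
      rw [← abs_of_nonneg (sq_nonneg m), ← abs_mul, ← h3, abs_mul, abs_of_pos (by norm_num : (0:ℝ) < 4)]
    have h9 : 1 * (2 * (x : ℝ)) ≤ m ^ 2 * |(p : ℝ) ^ 2 - 4 * x| := by
      have : (0 : ℝ) < x := by exact_mod_cast hx
      gcongr
    linarith
  · refine (min_le_right _ _).trans ?_
    obtain ⟨e, he⟩ : ∃ e : ℝ, e = (y - w ^ 3) * q ^ 3 := ⟨_, rfl⟩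
    have hf : ((F x y p q : ℤ) : ℝ) = δ ^ 2 * (3 * p - 2 * δ) + 2 * e := by
      rw [← f_form hw2 hδ he]; unfold F; push_cast; ring
    have h1 : (1 : ℝ) ≤ |((F x y p q : ℤ) : ℝ)| := by
      have := Int.one_le_abs hF
      exact_mod_cast this
    have h2 : |δ ^ 2 * (3 * p - 2 * δ)| ≤ 0.66 := by
      have h3 : (5 * p * |δ|) ^ 2 ≤ (3 * |m|) ^ 2 := pow_le_pow_left₀ (by positivity) hd2 2
      rw [mul_pow, mul_pow, mul_pow, sq_abs, sq_abs] at h3
      have h4 : 50 * (p : ℝ) * δ ^ 2 ≤ 9 := by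
        have : (p : ℝ) * (50 * p * δ ^ 2) ≤ p * 9 := by nlinarith
        exact le_of_mul_le_mul_left this hpr
      have h5 := neg_abs_le δ
      have h6 := le_abs_self δ
      rw [abs_mul, abs_of_nonneg (sq_nonneg δ), abs_of_nonneg (by linarith)]
      have h7 : δ ^ 2 * (3 * p - 2 * δ) ≤ δ ^ 2 * (11 / 3 * p) := by
        gcongr
        linarith
      linarith
    have h3 : (0.17 : ℝ) ≤ |e| := by
      rw [hf] at h1
      have h4 := abs_add_le (δ ^ 2 * (3 * p - 2 * δ)) (2 * e)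
      rw [abs_mul 2 e, abs_of_pos (by norm_num : (0:ℝ) < 2)] at h4
      linarith
    have h4 := k_bound hyr hw0 hw2 hqr he h3
    refine le_trans ?_ h4
    rw [div_le_div_iff₀ (by positivity) (by positivity)]
    have h5 : (0 : ℝ) < w ^ 3 * q ^ 3 := by positivity
    nlinarith

theorem case_three (hx : 0 < x) (hp : 0 < p) (hq : 0 < q) (hy : 0 ≤ y) (hcop : IsCoprime p q)
    (hk : y ^ 2 ≠ x ^ 3) (h : 2 * |M x p q| ^ 3 ≤ p ^ 2) :
    min (√(√(x : ℝ) ^ 3) / 40) (x / (25 * q ^ 4)) ≤ |((y : ℝ) ^ 2 - x ^ 3)| := by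
  obtain ⟨w, δ, hw0, hwx, hw2, hδ, hδp, hM⟩ := setup (x := x) (p := p) (q := q) hx hq
  have hpr : (0 : ℝ) < p := by exact_mod_cast hp
  have hqr : (0 : ℝ) < q := by exact_mod_cast hq
  have hyr : (0 : ℝ) ≤ y := by exact_mod_cast hy
  have hp1 : (1 : ℝ) ≤ p := by exact_mod_cast hp
  set m : ℝ := ((M x p q : ℤ) : ℝ) with hm
  have hr : 2 * |m| ^ 3 ≤ p ^ 2 := by
    have : ((2 * |M x p q| ^ 3 : ℤ) : ℝ) ≤ ((p ^ 2 : ℤ) : ℝ) := by exact_mod_cast h
    push_cast at this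
    exact this
  have hmm : |m| ≤ |m| ^ 3 := by
    have h1 : |M x p q| ≤ |M x p q| ^ 3 := by
      rcases eq_or_ne (M x p q) 0 with h0 | h0
      · rw [h0]; simp
      · have := Int.one_le_abs h0
        exact le_self_pow₀ this (by norm_num)
    have h2 : ((|M x p q| : ℤ) : ℝ) ≤ ((|M x p q| ^ 3 : ℤ) : ℝ) := by exact_mod_cast h1
    push_cast at h2
    exact h2
  obtain ⟨hd1, hd2, hd3⟩ := delta_bound hpr hδp hM (by nlinarith)
  have hpx : (p : ℝ) ^ 2 ≤ 2 * (w * q) ^ 2 := by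
    have h1 : (p : ℝ) ^ 2 = (w * q) ^ 2 + m := by
      rw [hM, hδ]; ring
    have := le_abs_self m
    nlinarith
  have hpx' : (p : ℝ) ≤ 1.42 * (w * q) := by
    have h0 : 0 < w * q := by positivity
    have : (p : ℝ) ^ 2 ≤ (1.42 * (w * q)) ^ 2 := by nlinarith [sq_nonneg (w * q)]
    exact (sq_le_sq₀ hpr.le (by positivity)).mp this
  rw [← hwx, ← hw2]
  obtain ⟨e, he⟩ : ∃ e : ℝ, e = (y - w ^ 3) * q ^ 3 := ⟨_, rfl⟩
  have hg : ((G x y p q : ℤ) : ℝ) = δ ^ 3 * (4 * p - 3 * δ) + 8 * p * e := by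
    rw [← g_form hw2 hδ he]; unfold G F M; push_cast; ring
  have h5 := neg_abs_le δ
  have h6 := le_abs_self δ
  by_cases hG : G x y p q = 0
  · refine (min_le_left _ _).trans ?_
    have hq1 : q = 1 := G_zero hq hcop hG
    have hM0 : M x p q ≠ 0 := by
      intro h0
      obtain ⟨-, hxp⟩ := M_zero hq hcop h0
      have h1 : G x y p q = 8 * p * (y - p ^ 3) := by
        unfold G F; rw [h0, hxp, hq1]; ring
      rw [h1] at hG
      have h2 : y = p ^ 3 := by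
        rcases mul_eq_zero.mp hG with h3 | h3
        · omega
        · linarith
      apply hk
      rw [h2, hxp]; ring
    have hmp : (4 : ℝ) * p ≤ 3 * m ^ 2 := by
      have h1 : 3 * (M x p q) ^ 2 = 4 * p * F x y p q := by
        unfold G at hG; linarith
      have h2 : 0 < (M x p q) ^ 2 := by positivity
      have h3 : 0 < F x y p q := by
        by_contra hcon
        push Not at hcon
        have h4 : 4 * p * F x y p q ≤ 0 := mul_nonpos_of_nonneg_of_nonpos (by omega) hcon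
        omega
      have h4 : 4 * p ≤ 3 * (M x p q) ^ 2 := by nlinarith
      have h' : ((4 * p : ℤ) : ℝ) ≤ ((3 * (M x p q) ^ 2 : ℤ) : ℝ) := by exact_mod_cast h4
      push_cast at h'
      exact h'
    have hg0 : 8 * p * e = -(δ ^ 3 * (4 * p - 3 * δ)) := by
      have : ((G x y p q : ℤ) : ℝ) = 0 := by rw [hG]; simp
      rw [this] at hg
      linarith
    have he1 : 3 / 8 * |δ| ^ 3 ≤ |e| := by
      have h1 : 8 * p * |e| = |δ| ^ 3 * (4 * p - 3 * δ) := by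
        have h2 := congrArg abs hg0
        rw [abs_mul, abs_of_pos (by positivity : (0:ℝ) < 8 * p), abs_neg, abs_mul, abs_pow,
          abs_of_nonneg (by linarith : 0 ≤ 4 * (p : ℝ) - 3 * δ)] at h2
        exact h2
      have h3 : |δ| ^ 3 * (3 * p) ≤ |δ| ^ 3 * (4 * p - 3 * δ) := by
        gcongr
        linarith
      have h4 : (8 * p) * (3 / 8 * |δ| ^ 3) ≤ (8 * p) * |e| := by linarith
      exact le_of_mul_le_mul_left h4 (by positivity)
    have hb := k_bound hyr hw0 hw2 hqr he he1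
    rw [← hw2] at hb
    have hqr1 : (q : ℝ) = 1 := by rw [hq1]; simp
    rw [hqr1] at hb hpx'
    set D := |δ| with hD
    have hD0 : 0 ≤ D := abs_nonneg _
    have h1 : (3 * |m|) ^ 6 ≤ (7 * p * D) ^ 6 := pow_le_pow_left₀ (by positivity) hd3 6
    have h2 : (4 * (p : ℝ)) ^ 3 ≤ (3 * m ^ 2) ^ 3 := pow_le_pow_left₀ (by positivity) hmp 3
    have h3 : (3 * |m|) ^ 6 = 27 * (3 * m ^ 2) ^ 3 := by
      rw [mul_pow, show |m| ^ 6 = (|m| ^ 2) ^ 3 by ring, sq_abs]; ring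
    have h4 : (1728 : ℝ) ≤ 117649 * (p ^ 3 * D ^ 6) := by
      have : (p : ℝ) ^ 3 * 1728 ≤ p ^ 3 * (117649 * (p ^ 3 * D ^ 6)) := by
        rw [h3] at h1
        have h5 : (7 * p * D) ^ 6 = p ^ 3 * (117649 * (p ^ 3 * D ^ 6)) := by ring
        rw [← h5]
        nlinarith
      exact le_of_mul_le_mul_left this (by positivity)
    have h7 : (p : ℝ) ^ 3 ≤ (1.42 * (w * 1)) ^ 3 := pow_le_pow_left₀ hpr.le hpx' 3
    have h8 : (p : ℝ) ^ 3 * D ^ 6 ≤ (1.42 * (w * 1)) ^ 3 * D ^ 6 := by gcongr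
    have h9 : (1728 : ℝ) ≤ 117649 * 2.8633 * (w ^ 3 * D ^ 6) := by
      have h10 : 0 ≤ w ^ 3 * D ^ 6 := by positivity
      have h11 : (1.42 * (w * 1)) ^ 3 * D ^ 6 = 2.863288 * (w ^ 3 * D ^ 6) := by ring
      nlinarith
    have h12 : (w ^ 3 * (3 / 8 * D ^ 3)) ^ 2 ≤ |(y : ℝ) ^ 2 - (w ^ 2) ^ 3| ^ 2 := by
      apply pow_le_pow_left₀ (by positivity)
      simpa using hb
    rw [div_le_iff₀ (by norm_num)]
    refine Real.sqrt_le_iff.mpr ⟨by positivity, ?_⟩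
    have h13 : (w ^ 3 * (3 / 8 * D ^ 3)) ^ 2 = 9 / 64 * w ^ 3 * (w ^ 3 * D ^ 6) := by ring
    rw [h13] at h12
    have h14 : w ^ 3 * 1728 ≤ w ^ 3 * (117649 * 2.8633 * (w ^ 3 * D ^ 6)) := by gcongr
    have h15 : 0 < w ^ 3 := by positivity
    nlinarith
  · refine (min_le_right _ _).trans ?_
    have h1 : (1 : ℝ) ≤ |((G x y p q : ℤ) : ℝ)| := by
      have := Int.one_le_abs hG
      exact_mod_cast this
    have h2 : |δ ^ 3 * (4 * p - 3 * δ)| ≤ 0.54 := by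
      have h3 : (5 * p * |δ|) ^ 3 ≤ (3 * |m|) ^ 3 := pow_le_pow_left₀ (by positivity) hd2 3
      rw [mul_pow, mul_pow, mul_pow] at h3
      have h4 : 250 * (p : ℝ) * |δ| ^ 3 ≤ 27 := by
        have : (p : ℝ) ^ 2 * (250 * p * |δ| ^ 3) ≤ p ^ 2 * 27 := by nlinarith
        exact le_of_mul_le_mul_left this (by positivity)
      rw [abs_mul, abs_pow, abs_of_nonneg (by linarith : 0 ≤ 4 * (p : ℝ) - 3 * δ)]
      have h7 : |δ| ^ 3 * (4 * p - 3 * δ) ≤ |δ| ^ 3 * (5 * p) := by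
        gcongr
        linarith
      linarith
    have h3 : (0.0575 : ℝ) / p ≤ |e| := by
      rw [hg] at h1
      have h4 := abs_add_le (δ ^ 3 * (4 * p - 3 * δ)) (8 * p * e)
      rw [abs_mul (8 * (p : ℝ)) e, abs_of_pos (by positivity : (0:ℝ) < 8 * p)] at h4
      rw [div_le_iff₀ hpr]
      linarith
    have h4 := k_bound hyr hw0 hw2 hqr he h3
    rw [← hw2] at h4
    refine le_trans ?_ h4
    have e1 : w ^ 3 * (0.0575 / p) / q ^ 3 = 0.0575 * w ^ 3 / (p * q ^ 3) := by field_simp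
    rw [e1, div_le_div_iff₀ (by positivity) (by positivity)]
    have h5 : w ^ 2 * (p * q ^ 3) ≤ w ^ 2 * (1.42 * (w * q) * q ^ 3) := by gcongr
    have h6 : (0 : ℝ) < w ^ 3 * q ^ 4 := by positivity
    nlinarith

end Pool.Agent.LibHall
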