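import Pool.Agent.LibHall.Near

/-! The third range: `8 m⁴ ≤ p³`. -/

namespace Pool.Agent.LibHall

variable {x y p q : ℤ}

lemma R_ne_zero (hp : 0 < p) (hq : 0 < q) (hcop : IsCoprime p q)
    (hk : y ^ 2 ≠ x ^ 3) (h : 8 * (M x p q) ^ 4 ≤ p ^ 3) : R x y p q ≠ 0 := by
  intro hR
  have hq1 : q = 1 := R_zero hq hcop hR
  by_cases hM0 : M x p q = 0
  · obtain ⟨-, hxp⟩ := M_zero hq hcop hM0
    have h1 : R x y p q = 24 * p ^ 2 * (y - p ^ 3) := by
      unfold R; rw [hM0, hq1]; ring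
    rw [h1] at hR
    have h2 : y = p ^ 3 := by
      rcases mul_eq_zero.mp hR with h3 | h3
      · have : 0 < 24 * p ^ 2 := by positivity
        omega
      · linarith
    apply hk
    rw [h2, hxp]; ring
  · have h1 := R_eq x y p q
    rw [hR] at h1
    exact no_R_zero (f := F x y p q) (g := G x y p q) hp hM0 (by unfold G; ring) (by linarith) h

theorem case_four (hx : 0 < x) (hp : 0 < p) (hq : 0 < q) (hy : 0 ≤ y) (hcop : IsCoprime p q)
    (hk : y ^ 2 ≠ x ^ 3) (h : 8 * (M x p q) ^ 4 ≤ p ^ 3) :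
    √(x : ℝ) / (40 * q ^ 5) ≤ |((y : ℝ) ^ 2 - x ^ 3)| := by
  obtain ⟨w, δ, hw0, hwx, hw2, hδ, hδp, hM⟩ := setup (x := x) (p := p) (q := q) hx hq
  have hpr : (0 : ℝ) < p := by exact_mod_cast hp
  have hqr : (0 : ℝ) < q := by exact_mod_cast hq
  have hyr : (0 : ℝ) ≤ y := by exact_mod_cast hy
  have hp1 : (1 : ℝ) ≤ p := by exact_mod_cast hp
  have hR := R_ne_zero hp hq hcop hk h
  -- `|m| ≤ p / 2`
  have hmp : 2 * |M x p q| ≤ p := by
    rcases eq_or_ne (M x p q) 0 with h0 | h0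
    · rw [h0]; simp; omega
    · have h1 := Int.one_le_abs h0
      by_contra hcon
      push Not at hcon
      have h2 : (M x p q) ^ 4 = |M x p q| ^ 4 := by
        rw [← abs_pow]; exact (abs_of_nonneg (by positivity)).symm
      have h3 : p ^ 3 ≤ (2 * |M x p q|) ^ 3 := pow_le_pow_left₀ hp.le hcon.le 3
      have h4 : 0 < |M x p q| ^ 3 := by positivity
      have h5 : |M x p q| ^ 3 * 1 ≤ |M x p q| ^ 3 * |M x p q| := by gcongr
      have h6 : p = 1 ∨ 2 ≤ p := by omega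
      have h7 : |M x p q| = 1 := by
        have h8 : |M x p q| < 2 := by
          by_contra hc2
          push Not at hc2
          have h9 : |M x p q| ^ 3 * 2 ≤ |M x p q| ^ 3 * |M x p q| := by gcongr
          nlinarith
        omega
      rw [h2, h7] at h
      rw [h7] at hcon
      have : p = 1 := by omega
      rw [this] at h
      norm_num at h
  set m : ℝ := ((M x p q : ℤ) : ℝ) with hm
  have hmr : 2 * |m| ≤ p := by
    have h' : ((2 * |M x p q| : ℤ) : ℝ) ≤ ((p : ℤ) : ℝ) := by exact_mod_cast hmp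
    push_cast at h'
    exact h'
  have hr : 8 * m ^ 4 ≤ p ^ 3 := by
    have h' : ((8 * (M x p q) ^ 4 : ℤ) : ℝ) ≤ ((p ^ 3 : ℤ) : ℝ) := by exact_mod_cast h
    push_cast at h'
    exact h'
  have hp2 : (p : ℝ) = 1 ∨ (2 : ℝ) ≤ p := by
    have : p = 1 ∨ 2 ≤ p := by omega
    rcases this with h0 | h0
    · left; rw [h0]; simp
    · right; exact_mod_cast h0
  have hmq : 4 * |m| ≤ p ^ 2 := by
    rcases hp2 with h0 | h0
    · have h1 : m = 0 := by
        by_contra hcon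
        have hM0 : M x p q ≠ 0 := by
          intro h2; apply hcon; rw [hm, h2]; simp
        have h3 : (1 : ℝ) ≤ |m| := by
          have := Int.one_le_abs hM0
          have h' : ((1 : ℤ) : ℝ) ≤ ((|M x p q| : ℤ) : ℝ) := by exact_mod_cast this
          push_cast at h'
          exact h'
        linarith
      rw [h1]; simp; positivity
    · nlinarith
  obtain ⟨hd1, hd2, hd3⟩ := delta_bound hpr hδp hM
    (by have := sq_nonneg (p : ℝ); linarith)
  have hpx : 3 * (p : ℝ) ^ 2 ≤ 4 * (w * q) ^ 2 := by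
    have h1 : (p : ℝ) ^ 2 = (w * q) ^ 2 + m := by
      rw [hM, hδ]; ring
    have := le_abs_self m
    nlinarith
  rw [← hwx]
  obtain ⟨e, he⟩ : ∃ e : ℝ, e = (y - w ^ 3) * q ^ 3 := ⟨_, rfl⟩
  have hg : ((R x y p q : ℤ) : ℝ) = δ ^ 4 * (5 * p - 4 * δ) + 4 * e * (6 * p ^ 2 - m) := by
    have h1 : m = (p : ℝ) ^ 2 - x * q ^ 2 := by rw [hm]; unfold M; push_cast; ring
    rw [h1, ← r_form hw2 hδ he]; unfold R M; push_cast; ring
  have h5 := neg_abs_le δ
  have h6 := le_abs_self δ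
  have h5' := neg_abs_le m
  have h6' := le_abs_self m
  have h1 : (1 : ℝ) ≤ |((R x y p q : ℤ) : ℝ)| := by
    have := Int.one_le_abs hR
    exact_mod_cast this
  have h2 : |δ ^ 4 * (5 * p - 4 * δ)| ≤ 0.103 := by
    have h3 : (5 * p * |δ|) ^ 4 ≤ (3 * |m|) ^ 4 := pow_le_pow_left₀ (by positivity) hd2 4
    have e1 : (5 * p * |δ|) ^ 4 = 625 * p ^ 4 * δ ^ 4 := by
      rw [mul_pow, mul_pow, show |δ| ^ 4 = (|δ| ^ 2) ^ 2 by ring, sq_abs]; ring
    have e2 : (3 * |m|) ^ 4 = 81 * m ^ 4 := by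
      rw [mul_pow, show |m| ^ 4 = (|m| ^ 2) ^ 2 by ring, sq_abs]; ring
    rw [e1, e2] at h3
    have h4 : 5000 * (p : ℝ) * δ ^ 4 ≤ 81 := by
      have : (p : ℝ) ^ 3 * (5000 * p * δ ^ 4) ≤ p ^ 3 * 81 := by nlinarith
      exact le_of_mul_le_mul_left this (by positivity)
    have hδ4 : 0 ≤ δ ^ 4 := by positivity
    rw [abs_mul, abs_of_nonneg hδ4, abs_of_nonneg (by linarith : 0 ≤ 5 * (p : ℝ) - 4 * δ)]
    have h7 : δ ^ 4 * (5 * p - 4 * δ) ≤ δ ^ 4 * (19 / 3 * p) := by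
      gcongr
      linarith
    linarith
  have h3 : (0.0358 : ℝ) / p ^ 2 ≤ |e| := by
    rw [hg] at h1
    have h4 := abs_add_le (δ ^ 4 * (5 * p - 4 * δ)) (4 * e * (6 * p ^ 2 - m))
    have hpos : 0 ≤ 6 * (p : ℝ) ^ 2 - m := by nlinarith
    rw [abs_mul (4 * e), abs_mul 4 e, abs_of_pos (by norm_num : (0:ℝ) < 4), abs_of_nonneg hpos] at h4
    have h7 : 4 * |e| * (6 * (p : ℝ) ^ 2 - m) ≤ 4 * |e| * (25 / 4 * p ^ 2) := by
      gcongr
      linarith
    rw [div_le_iff₀ (by positivity)]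
    linarith
  have h4 := k_bound hyr hw0 hw2 hqr he h3
  refine le_trans ?_ h4
  have e1 : w ^ 3 * (0.0358 / p ^ 2) / q ^ 3 = 0.0358 * w ^ 3 / (p ^ 2 * q ^ 3) := by field_simp
  rw [e1, div_le_div_iff₀ (by positivity) (by positivity)]
  have h7 : w * (3 * p ^ 2 * q ^ 3) ≤ w * (4 * (w * q) ^ 2 * q ^ 3) := by gcongr
  have h8 : (0 : ℝ) < w ^ 3 * q ^ 5 := by positivity
  nlinarith

end Pool.Agent.LibHall
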