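import Pool.Agent.LibHall.Near

/-! Lower bounds for `|y² - x³|` from small values of `p² - x q²`. -/

namespace Pool.Agent.LibHall

variable {x y p q : ℤ}

lemma F_sq_sub (x y p q : ℤ) : (F x y p q) ^ 2 - (M x p q) ^ 3 =
    q ^ 2 * ((M x p q) ^ 2 * x - 4 * (M x p q) * p * (x * p - y * q)
      + 4 * q ^ 2 * (x * p - y * q) ^ 2) := by
  unfold F M; ring

lemma F_eq (x y p q : ℤ) : F x y p q = M x p q * p - 2 * q ^ 2 * (x * p - y * q) := by
  unfold F M; ring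

lemma k_ge_one (hk : y ^ 2 ≠ x ^ 3) : (1 : ℝ) ≤ |(y : ℝ) ^ 2 - x ^ 3| := by
  have h1 : y ^ 2 - x ^ 3 ≠ 0 := sub_ne_zero.mpr hk
  have h2 := Int.one_le_abs h1
  have h' : ((1 : ℤ) : ℝ) ≤ ((|y ^ 2 - x ^ 3| : ℤ) : ℝ) := by exact_mod_cast h2
  push_cast at h'
  exact h'

/-- the case of a perfect square -/
lemma case_square (hy : 0 ≤ y) (hp : 0 < p) (hxp : x = p ^ 2) (hk : y ^ 2 ≠ x ^ 3) :
    √(x : ℝ) ^ 3 ≤ |(y : ℝ) ^ 2 - x ^ 3| := by
  have hpr : (0 : ℝ) < p := by exact_mod_cast hp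
  have hyr : (0 : ℝ) ≤ y := by exact_mod_cast hy
  have hxr : (x : ℝ) = (p : ℝ) ^ 2 := by rw [hxp]; push_cast; ring
  have h1 : √(x : ℝ) = p := by rw [hxr]; exact Real.sqrt_sq hpr.le
  rw [h1, hxr]
  have h2 : (y : ℝ) ^ 2 - ((p : ℝ) ^ 2) ^ 3 = (y - p ^ 3) * (y + p ^ 3) := by ring
  have h3 : y - p ^ 3 ≠ 0 := by
    intro h
    apply hk
    have : y = p ^ 3 := by linarith
    rw [this, hxp]; ring
  have h4 : (1 : ℝ) ≤ |(y : ℝ) - p ^ 3| := by
    have h5 := Int.one_le_abs h3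
    have h' : ((1 : ℤ) : ℝ) ≤ ((|y - p ^ 3| : ℤ) : ℝ) := by exact_mod_cast h5
    push_cast at h'
    exact h'
  rw [h2, abs_mul, abs_of_pos (by positivity : (0 : ℝ) < y + p ^ 3)]
  have h6 : (p : ℝ) ^ 3 ≤ y + p ^ 3 := by linarith
  calc (p : ℝ) ^ 3 = 1 * p ^ 3 := by ring
    _ ≤ |(y : ℝ) - p ^ 3| * (y + p ^ 3) := by gcongr

/-- the polynomial family `F² = m³` -/
lemma family {μ : ℤ} (hx : 0 < x) (hq2 : 2 ≤ q) (hcop : IsCoprime p q)
    (hM : M x p q = μ ^ 2) (hF : F x y p q = μ ^ 3) (h : 2 * |M x p q| ^ 3 ≤ q ^ 2) :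
    x ^ 3 ≤ 160000 * (y ^ 2 - x ^ 3) ^ 4 := by
  have hq : 0 < q := by omega
  have hcM := coprime_M (x := x) hcop
  rw [hM] at hcM
  have hcμ : IsCoprime μ q := (IsCoprime.pow_left_iff (by norm_num : 0 < 2)).mp hcM
  have hμ0 : μ ≠ 0 := by
    rintro rfl
    have h1 : IsUnit q := isCoprime_zero_left.mp hcμ
    rcases Int.isUnit_iff.mp h1 with h2 | h2 <;> omega
  have h1 := F_eq x y p q
  rw [hF, hM] at h1
  -- `q² ∣ p - μ`
  have h2 : q ^ 2 ∣ μ ^ 2 * (p - μ) := ⟨2 * (x * p - y * q), by linear_combination -h1⟩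
  have h3 : q ^ 2 ∣ p - μ := (hcμ.symm.pow (m := 2) (n := 2)).dvd_of_dvd_mul_left h2
  obtain ⟨g, hg⟩ := h3
  have hpg : p = μ + q ^ 2 * g := by linarith
  have hq0 : q ^ 2 ≠ 0 := by positivity
  have hxg : x = g * (2 * μ + q ^ 2 * g) := by
    have h4 : q ^ 2 * (x - g * (2 * μ + q ^ 2 * g)) = 0 := by
      unfold M at hM
      rw [hpg] at hM
      linear_combination -hM
    rcases mul_eq_zero.mp h4 with h5 | h5
    · exact absurd h5 hq0
    · linarith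
  have hg0 : g ≠ 0 := by
    rintro rfl
    rw [hxg] at hx
    simp at hx
  have hyg : 2 * y * q = g * (3 * μ ^ 2 + 6 * μ * q ^ 2 * g + 2 * q ^ 4 * g ^ 2) := by
    have h4 : q ^ 2 * (2 * y * q - g * (3 * μ ^ 2 + 6 * μ * q ^ 2 * g + 2 * q ^ 4 * g ^ 2)) = 0 := by
      unfold F at hF
      rw [hpg, hxg] at hF
      linear_combination hF
    rcases mul_eq_zero.mp h4 with h5 | h5
    · exact absurd h5 hq0
    · linarith
  have hkg : 4 * q ^ 2 * (y ^ 2 - x ^ 3) = g ^ 2 * μ ^ 3 * (9 * μ + 4 * q ^ 2 * g) := by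
    rw [hxg]
    linear_combination (2 * y * q + g * (3 * μ ^ 2 + 6 * μ * q ^ 2 * g + 2 * q ^ 4 * g ^ 2)) * hyg
  have hdvd : q ∣ 3 * g := by
    have h4 : q ∣ (3 * g) * μ ^ 2 :=
      ⟨2 * y - g * (6 * μ * q * g + 2 * q ^ 3 * g ^ 2), by linear_combination -hyg⟩
    exact (hcμ.symm.pow_right (n := 2)).dvd_of_dvd_mul_right h4
  have hq3g : q ≤ 3 * |g| := by
    have h4 : 0 < |3 * g| := abs_pos.mpr (by omega)
    have h5 := Int.le_of_dvd h4 ((dvd_abs _ _).mpr hdvd)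
    rwa [abs_mul, abs_of_pos (by norm_num : (0 : ℤ) < 3)] at h5
  have hμ1 : 1 ≤ |μ| := Int.one_le_abs hμ0
  have hg1 : 1 ≤ |g| := Int.one_le_abs hg0
  have hμq : 4 * |μ| ≤ q ^ 2 := by
    rw [hM, abs_pow] at h
    have h6 : |μ| = 1 ∨ 2 ≤ |μ| := by omega
    rcases h6 with h7 | h7
    · rw [h7]; nlinarith
    · have h8 : (2 : ℤ) ^ 5 ≤ |μ| ^ 5 := pow_le_pow_left₀ (by norm_num) h7 5
      have h9 : |μ| * 2 ^ 5 ≤ |μ| * |μ| ^ 5 := by gcongr
      nlinarith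
  -- lower bound for `k`
  have hk1 : 7 * |g| ^ 3 ≤ 16 * |y ^ 2 - x ^ 3| := by
    have h4 : 7 * (q ^ 2 * |g|) ≤ 4 * |9 * μ + 4 * q ^ 2 * g| := by
      have h5 : |4 * q ^ 2 * g| ≤ |9 * μ + 4 * q ^ 2 * g| + |9 * μ| := by
        have := abs_sub_abs_le_abs_sub (4 * q ^ 2 * g) (-(9 * μ))
        rw [abs_neg, show 4 * q ^ 2 * g - -(9 * μ) = 9 * μ + 4 * q ^ 2 * g by ring] at this
        linarith
      rw [abs_mul, abs_of_pos (by positivity : 0 < 4 * q ^ 2), abs_mul,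
        abs_of_pos (by norm_num : (0 : ℤ) < 9)] at h5
      have h6 : q ^ 2 * 1 ≤ q ^ 2 * |g| := by gcongr
      nlinarith
    have h5 : 4 * q ^ 2 * |y ^ 2 - x ^ 3| = |g| ^ 2 * |μ| ^ 3 * |9 * μ + 4 * q ^ 2 * g| := by
      have h6 := congrArg abs hkg
      rw [abs_mul, abs_of_pos (by positivity : 0 < 4 * q ^ 2), abs_mul, abs_mul, abs_pow,
        abs_pow] at h6
      exact h6
    have h6 : |g| ^ 2 * 1 ^ 3 * (7 * (q ^ 2 * |g|)) ≤
        |g| ^ 2 * |μ| ^ 3 * (4 * |9 * μ + 4 * q ^ 2 * g|) := by gcongr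
    have h7 : q ^ 2 * (7 * |g| ^ 3) ≤ q ^ 2 * (16 * |y ^ 2 - x ^ 3|) := by nlinarith
    exact le_of_mul_le_mul_left h7 (by positivity)
  -- upper bound for `x`
  have hx1 : 2 * x ≤ 27 * |g| ^ 4 := by
    have h4 : x ≤ |g| * (2 * |μ| + q ^ 2 * |g|) := by
      have h5 : |x| = |g| * |2 * μ + q ^ 2 * g| := by rw [hxg, abs_mul]
      have h6 : |2 * μ + q ^ 2 * g| ≤ 2 * |μ| + q ^ 2 * |g| := by
        refine (abs_add_le _ _).trans ?_
        rw [abs_mul, abs_mul, abs_of_pos (by norm_num : (0 : ℤ) < 2),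
          abs_of_pos (by positivity : 0 < q ^ 2)]
      calc x ≤ |x| := le_abs_self x
        _ = |g| * |2 * μ + q ^ 2 * g| := h5
        _ ≤ _ := by gcongr
    have h5 : q ^ 2 * 1 ≤ q ^ 2 * |g| := by gcongr
    have h6 : 2 * (2 * |μ| + q ^ 2 * |g|) ≤ 3 * (q ^ 2 * |g|) := by linarith
    have h7 : q ^ 2 ≤ (3 * |g|) ^ 2 := pow_le_pow_left₀ hq.le hq3g 2
    calc 2 * x ≤ 2 * (|g| * (2 * |μ| + q ^ 2 * |g|)) := by linarith
      _ = |g| * (2 * (2 * |μ| + q ^ 2 * |g|)) := by ring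
      _ ≤ |g| * (3 * (q ^ 2 * |g|)) := by gcongr
      _ ≤ |g| * (3 * ((3 * |g|) ^ 2 * |g|)) := by gcongr
      _ = 27 * |g| ^ 4 := by ring
  have h4 : (2 * x) ^ 3 ≤ (27 * |g| ^ 4) ^ 3 := pow_le_pow_left₀ (by omega) hx1 3
  have h5 : (7 * |g| ^ 3) ^ 4 ≤ (16 * |y ^ 2 - x ^ 3|) ^ 4 := pow_le_pow_left₀ (by positivity) hk1 4
  have h6 : |y ^ 2 - x ^ 3| ^ 4 = (y ^ 2 - x ^ 3) ^ 4 := by
    rw [show |y ^ 2 - x ^ 3| ^ 4 = (|y ^ 2 - x ^ 3| ^ 2) ^ 2 by ring, sq_abs]; ring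
  rw [mul_pow 16, h6] at h5
  have h7 : 0 ≤ (y ^ 2 - x ^ 3) ^ 4 := by positivity
  generalize (y ^ 2 - x ^ 3) ^ 4 = K at *
  nlinarith

/-- small `m` compared with `q` -/
theorem case_small (hx : 0 < x) (hp : 0 < p) (hq : 0 < q) (hy : 0 ≤ y) (hcop : IsCoprime p q)
    (hk : y ^ 2 ≠ x ^ 3) (h : 2 * |M x p q| ^ 3 ≤ q ^ 2) :
    min (√(√(x : ℝ) ^ 3) / 20) (√(x : ℝ) ^ 3 / (6 * q ^ 2)) ≤ |((y : ℝ) ^ 2 - x ^ 3)| := by
  obtain ⟨w, δ, hw0, hwx, hw2, hδ, hδp, hM⟩ := setup (x := x) (p := p) (q := q) hx hq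
  have hpr : (0 : ℝ) < p := by exact_mod_cast hp
  have hqr : (0 : ℝ) < q := by exact_mod_cast hq
  have hyr : (0 : ℝ) ≤ y := by exact_mod_cast hy
  have hxr : (0 : ℝ) < x := by exact_mod_cast hx
  have hk1 := k_ge_one hk
  -- `q = 1`
  rcases (by omega : q = 1 ∨ 2 ≤ q) with hq1 | hq2
  · have hM0 : M x p q = 0 := by
      by_contra hcon
      have h1 := Int.one_le_abs hcon
      have h2 : 1 ≤ |M x p q| ^ 3 := one_le_pow₀ h1
      rw [hq1] at h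
      rw [hq1] at h2
      omega
    obtain ⟨-, hxp⟩ := M_zero hq hcop hM0
    refine (min_le_right _ _).trans ((le_trans ?_ (case_square hy hp hxp hk)))
    rw [hq1]
    have : 0 ≤ √(x : ℝ) ^ 3 := by positivity
    push_cast
    linarith
  have hM0 : M x p q ≠ 0 := by
    intro h0
    have := (M_zero hq hcop h0).1
    omega
  by_cases hFM : (F x y p q) ^ 2 = (M x p q) ^ 3
  · -- polynomial family
    refine (min_le_left _ _).trans ?_
    have h1 : M x p q ^ 2 ∣ (F x y p q) ^ 2 := ⟨M x p q, by rw [hFM]; ring⟩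
    have h2 : M x p q ∣ F x y p q := (Int.pow_dvd_pow_iff (by norm_num)).mp h1
    obtain ⟨μ, hμ⟩ := h2
    have h3 : M x p q = μ ^ 2 := by
      rw [hμ] at hFM
      have h4 : M x p q ^ 2 * (μ ^ 2 - M x p q) = 0 := by linear_combination hFM
      rcases mul_eq_zero.mp h4 with h5 | h5
      · exact absurd (pow_eq_zero_iff (by norm_num) |>.mp h5) hM0
      · linarith
    have h4 : F x y p q = μ ^ 3 := by rw [hμ, h3]; ring
    have h5 := family hx hq2 hcop h3 h4 h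
    have h6 : (x : ℝ) ^ 3 ≤ 160000 * |(y : ℝ) ^ 2 - x ^ 3| ^ 4 := by
      have h' : ((x ^ 3 : ℤ) : ℝ) ≤ ((160000 * (y ^ 2 - x ^ 3) ^ 4 : ℤ) : ℝ) := by exact_mod_cast h5
      push_cast at h'
      rw [show |(y : ℝ) ^ 2 - x ^ 3| ^ 4 = (|(y : ℝ) ^ 2 - x ^ 3| ^ 2) ^ 2 by ring, sq_abs]
      linarith [h', (by ring : ((y : ℝ) ^ 2 - x ^ 3) ^ 4 = (((y : ℝ) ^ 2 - x ^ 3) ^ 2) ^ 2)]
    rw [div_le_iff₀ (by norm_num)]
    refine Real.sqrt_le_iff.mpr ⟨by positivity, ?_⟩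
    rw [← hwx]
    have h7 : (w ^ 3) ^ 2 ≤ ((|(y : ℝ) ^ 2 - x ^ 3| * 20) ^ 2) ^ 2 := by
      have h8 : (w ^ 3) ^ 2 = (x : ℝ) ^ 3 := by rw [← hw2]; ring
      rw [h8]
      linarith [h6, (by ring : ((|(y : ℝ) ^ 2 - x ^ 3| * 20) ^ 2) ^ 2 =
        160000 * |(y : ℝ) ^ 2 - x ^ 3| ^ 4)]
    exact (sq_le_sq₀ (by positivity) (by positivity)).mp h7
  · refine (min_le_right _ _).trans ?_
    have hF2 : q ^ 2 ≤ 2 * (F x y p q) ^ 2 := by
      have h1 := F_sq_sub x y p q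
      have h2 : q ^ 2 ∣ (F x y p q) ^ 2 - (M x p q) ^ 3 := ⟨_, h1⟩
      have h3 : (F x y p q) ^ 2 - (M x p q) ^ 3 ≠ 0 := sub_ne_zero.mpr hFM
      have h4 : q ^ 2 ≤ |(F x y p q) ^ 2 - (M x p q) ^ 3| :=
        Int.le_of_dvd (abs_pos.mpr h3) ((dvd_abs _ _).mpr h2)
      have h5 : |M x p q ^ 3| = |M x p q| ^ 3 := abs_pow _ _
      have h6 := le_abs_self (M x p q ^ 3)
      have h7 := neg_abs_le (M x p q ^ 3)
      rw [h5] at h6 h7
      have h8 := sq_nonneg (F x y p q)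
      rcases abs_cases ((F x y p q) ^ 2 - (M x p q) ^ 3) with ⟨h9, -⟩ | ⟨h9, -⟩
      · rw [h9] at h4; linarith
      · rw [h9] at h4
        nlinarith
    rw [← hwx]
    -- small `x`
    rcases (by omega : x ≤ 3 ∨ 4 ≤ x) with hx3 | hx4
    · refine le_trans ?_ hk1
      have h1 : w ^ 2 ≤ 3 := by rw [hw2]; exact_mod_cast hx3
      have h2 : w ≤ 2 := by nlinarith
      have h3 : (2 : ℝ) ≤ q := by exact_mod_cast hq2
      rw [div_le_one (by positivity)]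
      nlinarith
    have hw4 : 4 ≤ w ^ 2 := by rw [hw2]; exact_mod_cast hx4
    have hw1 : 2 ≤ w := by nlinarith
    set m : ℝ := ((M x p q : ℤ) : ℝ) with hm
    have hr : 2 * |m| ^ 3 ≤ q ^ 2 := by
      have h' : ((2 * |M x p q| ^ 3 : ℤ) : ℝ) ≤ ((q ^ 2 : ℤ) : ℝ) := by exact_mod_cast h
      push_cast at h'
      exact h'
    have hm1 : (1 : ℝ) ≤ |m| := by
      have h1 := Int.one_le_abs hM0
      have h' : ((1 : ℤ) : ℝ) ≤ ((|M x p q| : ℤ) : ℝ) := by exact_mod_cast h1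
      push_cast at h'
      exact h'
    have hm3 : |m| ≤ |m| ^ 3 := le_self_pow₀ hm1 (by norm_num)
    have hm2 : |m| ^ 2 ≤ |m| ^ 3 := pow_le_pow_right₀ hm1 (by norm_num)
    have hpe : (p : ℝ) ^ 2 = (w * q) ^ 2 + m := by rw [hM, hδ]; ring
    have hpq : 3.5 * (q : ℝ) ^ 2 ≤ p ^ 2 := by
      have h1 := neg_abs_le m
      have h2 : 4 * (q : ℝ) ^ 2 ≤ (w * q) ^ 2 := by rw [mul_pow]; gcongr
      linarith
    have hpq' : 1.87 * (q : ℝ) ≤ p := by
      have : (1.87 * (q : ℝ)) ^ 2 ≤ p ^ 2 := by nlinarith [sq_nonneg (q : ℝ)]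
      exact (sq_le_sq₀ (by positivity) hpr.le).mp this
    obtain ⟨hd1, hd2, hd3⟩ := delta_bound hpr hδp hM (by nlinarith [sq_nonneg (p : ℝ)])
    obtain ⟨e, he⟩ : ∃ e : ℝ, e = (y - w ^ 3) * q ^ 3 := ⟨_, rfl⟩
    have hf : ((F x y p q : ℤ) : ℝ) = δ ^ 2 * (3 * p - 2 * δ) + 2 * e := by
      rw [← f_form hw2 hδ he]; unfold F; push_cast; ring
    have h1 : 0.7 * (q : ℝ) ≤ |((F x y p q : ℤ) : ℝ)| := by
      have h' : ((q ^ 2 : ℤ) : ℝ) ≤ ((2 * (F x y p q) ^ 2 : ℤ) : ℝ) := by exact_mod_cast hF2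
      push_cast at h'
      rw [← sq_abs ((F x y p q : ℤ) : ℝ)] at h'
      have : (0.7 * (q : ℝ)) ^ 2 ≤ |((F x y p q : ℤ) : ℝ)| ^ 2 := by nlinarith [sq_nonneg (q : ℝ)]
      exact (sq_le_sq₀ (by positivity) (by positivity)).mp this
    have h5 := neg_abs_le δ
    have h6 := le_abs_self δ
    have h2 : |δ ^ 2 * (3 * p - 2 * δ)| ≤ (0.354 : ℝ) * q := by
      have h3 : (5 * p * |δ|) ^ 2 ≤ (3 * |m|) ^ 2 := pow_le_pow_left₀ (by positivity) hd2 2
      have h4 : 25 * (p : ℝ) ^ 2 * δ ^ 2 ≤ 4.5 * q ^ 2 := by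
        have e1 : (5 * p * |δ|) ^ 2 = 25 * p ^ 2 * δ ^ 2 := by rw [mul_pow, mul_pow, sq_abs]; ring
        have e2 : (3 * |m|) ^ 2 = 9 * |m| ^ 2 := by ring
        rw [e1, e2] at h3
        linarith
      rw [abs_mul, abs_of_nonneg (sq_nonneg δ), abs_of_nonneg (by linarith)]
      have h7 : δ ^ 2 * (3 * p - 2 * δ) ≤ δ ^ 2 * (11 / 3 * p) := by
        gcongr
        linarith
      have h8 : p * (δ ^ 2 * (11 / 3 * p)) ≤ p * ((0.354 : ℝ) * q) := by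
        have h9 : 0 < (q : ℝ) * p := by positivity
        have h10 : (q : ℝ) * (1.87 * q) ≤ q * p := by gcongr
        nlinarith
      exact h7.trans (le_of_mul_le_mul_left h8 hpr)
    have h3 : 0.17 * (q : ℝ) ≤ |e| := by
      rw [hf] at h1
      have h4 := abs_add_le (δ ^ 2 * (3 * p - 2 * δ)) (2 * e)
      rw [abs_mul 2 e, abs_of_pos (by norm_num : (0:ℝ) < 2)] at h4
      linarith
    have h4 := k_bound hyr hw0 hw2 hqr he h3
    refine le_trans ?_ h4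
    rw [div_le_div_iff₀ (by positivity) (by positivity)]
    have h5 : (0 : ℝ) < w ^ 3 * q ^ 3 := by positivity
    nlinarith

/-- large `q` -/
theorem case_large (hx : 0 < x) (hp : 0 < p) (hq : 0 < q) (hy : 0 ≤ y)
    (hk : y ^ 2 ≠ x ^ 3) (h : |M x p q| * p ≤ q ^ 2) :
    |M x p q| * x ^ 2 ≤ 4 * q ^ 2 * |y ^ 2 - x ^ 3| := by
  have hk1 : 1 ≤ |y ^ 2 - x ^ 3| := Int.one_le_abs (sub_ne_zero.mpr hk)
  have hM : M x p q = p ^ 2 - x * q ^ 2 := rfl
  have hT1 : p * (x ^ 2 * |M x p q|) ≤ x * p ^ 2 + x * |M x p q| := by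
    have h1 : x * q ^ 2 = p ^ 2 - M x p q := by rw [hM]; ring
    have h2 := neg_abs_le (M x p q)
    calc p * (x ^ 2 * |M x p q|) = x ^ 2 * (|M x p q| * p) := by ring
      _ ≤ x ^ 2 * q ^ 2 := by gcongr
      _ = x * (x * q ^ 2) := by ring
      _ = x * (p ^ 2 - M x p q) := by rw [h1]
      _ ≤ x * (p ^ 2 + |M x p q|) := by gcongr; linarith
      _ = _ := by ring
  obtain ⟨n, hn⟩ : ∃ n : ℤ, n = x * p - y * q := ⟨_, rfl⟩
  have hkey : q ^ 2 * (y ^ 2 - x ^ 3) = x ^ 2 * M x p q + n * (n - 2 * (x * p)) := by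
    rw [hn, hM]; ring
  set A := |M x p q| with hA
  have hA0 : 0 ≤ A := abs_nonneg _
  rcases eq_or_ne n 0 with h0 | h0
  · rw [h0] at hkey
    have h1 : q ^ 2 * |y ^ 2 - x ^ 3| = x ^ 2 * A := by
      have h2 := congrArg abs hkey
      rw [abs_mul, abs_of_pos (by positivity : 0 < q ^ 2), zero_mul, add_zero, abs_mul,
        abs_of_pos (by positivity : 0 < x ^ 2)] at h2
      exact h2
    have h3 : 0 ≤ x ^ 2 * A := by positivity
    nlinarith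
  · have hnxp : n ≤ x * p := by
      rw [hn]
      have : 0 ≤ y * q := by positivity
      linarith
    have hxp : 0 < x * p := by positivity
    have h1 : 2 * (x * p) - 1 ≤ |n * (n - 2 * (x * p))| := by
      rcases lt_or_gt_of_ne h0 with h2 | h2
      · rw [abs_of_pos (mul_pos_of_neg_of_neg h2 (by linarith))]
        nlinarith
      · rw [abs_of_neg (mul_neg_of_pos_of_neg h2 (by linarith))]
        nlinarith
    have h2 : |n * (n - 2 * (x * p))| ≤ q ^ 2 * |y ^ 2 - x ^ 3| + x ^ 2 * A := by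
      have h3 : n * (n - 2 * (x * p)) = q ^ 2 * (y ^ 2 - x ^ 3) - x ^ 2 * M x p q := by
        rw [hkey]; ring
      rw [h3]
      refine (abs_sub _ _).trans ?_
      rw [abs_mul, abs_of_pos (by positivity : 0 < q ^ 2), abs_mul,
        abs_of_pos (by positivity : 0 < x ^ 2)]
    set u := x * p with hu
    rcases (by omega : u ≤ 4 ∨ 5 ≤ u) with hu4 | hu5
    · have h3 : A * x ^ 2 ≤ 4 * q ^ 2 * 1 := by
        by_cases hc : x ^ 2 ≤ 4 * p
        · have h4 : p * (A * x ^ 2) ≤ p * (4 * q ^ 2 * 1) := by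
            calc p * (A * x ^ 2) = x ^ 2 * (A * p) := by ring
              _ ≤ (4 * p) * q ^ 2 := by gcongr
              _ = p * (4 * q ^ 2 * 1) := by ring
          exact le_of_mul_le_mul_left h4 hp
        · exfalso
          push Not at hc
          have hp1 : p = 1 := by
            by_contra hne
            have h5 : 2 ≤ p := by omega
            have h6 : x * 2 ≤ 4 := by
              have := mul_le_mul_of_nonneg_left h5 hx.le
              linarith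
            have h7 : x ≤ 2 := by omega
            nlinarith
          rw [hp1] at hc h hM
          have hx3 : 3 ≤ x := by nlinarith
          have h5 : -A ≤ M x p q := by rw [hA]; exact neg_abs_le _
          rw [hp1] at h5
          rw [hM] at h5
          have h6 : 3 * q ^ 2 ≤ x * q ^ 2 := by gcongr
          have h7 : 0 < q ^ 2 := by positivity
          nlinarith
      calc A * x ^ 2 ≤ 4 * q ^ 2 * 1 := h3
        _ ≤ 4 * q ^ 2 * |y ^ 2 - x ^ 3| := by gcongr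
    · -- main case
      have h3 : (u - 1) * (x ^ 2 * A) ≤ u ^ 2 := by
        have h4 : x * (p * (x ^ 2 * A)) ≤ x * (x * p ^ 2 + x * A) := by gcongr
        have h5 : u ^ 2 = x ^ 2 * p ^ 2 := by rw [hu]; ring
        have h6 : (u - 1) * (x ^ 2 * A) = x * (p * (x ^ 2 * A)) - x ^ 2 * A := by rw [hu]; ring
        rw [h5, h6]
        linarith
      have h5 : 5 * (x ^ 2 * A) ≤ 8 * u - 4 := by
        have h6 : (u - 1) * (5 * (x ^ 2 * A)) ≤ (u - 1) * (8 * u - 4) := by nlinarith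
        exact le_of_mul_le_mul_left h6 (by omega)
      nlinarith

end Pool.Agent.LibHall
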