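import Pool.Agent.LibHall.Pell

/-! A lower bound for `|y² - x³|` uniform in `p² - x q²`, for `q ≤ x^(3/4)`. -/

namespace Pool.Agent.LibHall

variable {x y p q : ℤ}

theorem case_uniform (hx : 0 < x) (hp : 0 < p) (hq : 0 < q) (hy : 0 ≤ y) (hcop : IsCoprime p q)
    (hk : y ^ 2 ≠ x ^ 3) (hM0 : M x p q ≠ 0) (h : q ^ 4 ≤ x ^ 3) :
    √(x : ℝ) / (20 * (M x p q : ℝ) ^ 2) ≤ |((y : ℝ) ^ 2 - x ^ 3)| := by
  have hk1 := k_ge_one hk
  have hxr : (0 : ℝ) < x := by exact_mod_cast hx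
  have hqr : (0 : ℝ) < q := by exact_mod_cast hq
  have hx1 : (1 : ℝ) ≤ x := by exact_mod_cast hx
  obtain ⟨w, hw⟩ : ∃ w : ℝ, w = √(x : ℝ) := ⟨_, rfl⟩
  have hw2 : w ^ 2 = x := by rw [hw]; exact Real.sq_sqrt hxr.le
  have hw0 : 0 < w := by rw [hw]; exact Real.sqrt_pos.mpr hxr
  have hw1 : 1 ≤ w := by rw [hw]; exact Real.one_le_sqrt.mpr hx1
  have hA1 : 1 ≤ |M x p q| := Int.one_le_abs hM0
  obtain ⟨A, hA⟩ : ∃ A : ℤ, A = |M x p q| := ⟨_, rfl⟩
  rw [← hA] at hA1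
  have hMA : (M x p q) ^ 2 = A ^ 2 := by rw [hA, sq_abs]
  have hMAr : ((M x p q : ℤ) : ℝ) ^ 2 = (A : ℝ) ^ 2 := by exact_mod_cast hMA
  have hAr : (1 : ℝ) ≤ A := by exact_mod_cast hA1
  have hA2r : (1 : ℝ) ≤ (A : ℝ) ^ 2 := one_le_pow₀ hAr
  rw [hMAr, ← hw]
  rcases le_or_gt w (20 * (A : ℝ) ^ 2) with hsmall | hbig
  · refine le_trans ?_ hk1
    rwa [div_le_one (by positivity)]
  have hxA : 400 * A ^ 4 < x := by
    have h1 : (20 * (A : ℝ) ^ 2) ^ 2 < w ^ 2 := pow_lt_pow_left₀ hbig (by positivity) (by norm_num)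
    rw [hw2] at h1
    have h2 : ((400 * A ^ 4 : ℤ) : ℝ) < (x : ℝ) := by
      push_cast
      linarith [h1, (by ring : (20 * (A : ℝ) ^ 2) ^ 2 = 400 * (A : ℝ) ^ 4)]
    exact_mod_cast h2
  have hM : M x p q = p ^ 2 - x * q ^ 2 := rfl
  have hM1 : -A ≤ M x p q := by rw [hA]; exact neg_abs_le _
  have hM2 : M x p q ≤ A := by rw [hA]; exact le_abs_self _
  have hA4 : A ≤ A ^ 4 := le_self_pow₀ hA1 (by norm_num)
  have hq1 : 1 ≤ q ^ 2 := one_le_pow₀ (by omega)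
  have hxq : x * 1 ≤ x * q ^ 2 := by gcongr
  have hpA : 2 * A ^ 2 ≤ p := by
    have h1 : (2 * A ^ 2) ^ 2 ≤ p ^ 2 := by
      have h2 : (2 * A ^ 2) ^ 2 = 4 * A ^ 4 := by ring
      rw [h2]
      linarith
    exact (sq_le_sq₀ (by positivity) hp.le).mp h1
  rcases le_or_gt (3 * q ^ 3) (10 * (x * A ^ 2)) with hc | hc
  · -- `q` small
    have h1 := case_two hx hp hq hy hcop hk (by rw [hMA]; exact hpA)
    refine le_trans (le_min ?_ ?_) h1
    · rw [← hw2, div_le_div_iff₀ (by positivity) (by norm_num)]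
      nlinarith
    · rw [← hw, div_le_div_iff₀ (by positivity) (by positivity)]
      have h2 : 3 * (q : ℝ) ^ 3 ≤ 10 * (x * (A : ℝ) ^ 2) := by exact_mod_cast hc
      rw [← hw2] at h2
      have h3 : w * (3 * (q : ℝ) ^ 3) ≤ w * (10 * (w ^ 2 * (A : ℝ) ^ 2)) := by gcongr
      linarith
  · have hq2 : 2 * A ^ 3 ≤ q ^ 2 := by
      by_contra hcon
      push Not at hcon
      have h1 : 4000 * A ^ 6 < 3 * q ^ 3 := by
        have h2 : 400 * A ^ 4 * A ^ 2 < x * A ^ 2 := by gcongr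
        linarith [h2, hc, (by ring : 400 * A ^ 4 * A ^ 2 = 400 * A ^ 6)]
      have h2 : (4000 * A ^ 6) ^ 2 < (3 * q ^ 3) ^ 2 :=
        pow_lt_pow_left₀ h1 (by positivity) (by norm_num)
      have h3 : (q ^ 2) ^ 3 < (2 * A ^ 3) ^ 3 := pow_lt_pow_left₀ hcon (by positivity) (by norm_num)
      have h4 : A ^ 9 * 1 ≤ A ^ 9 * A ^ 3 := by
        gcongr
        exact one_le_pow₀ hA1
      have h5 : 0 < A ^ 9 := by positivity
      nlinarith
    rcases le_or_gt (A * p) (q ^ 2) with hd | hd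
    · -- `q` large
      have h1 := case_large hx hp hq hy hk (by rw [← hA]; exact hd)
      rw [← hA] at h1
      have h2 : (A : ℝ) * x ^ 2 ≤ 4 * (q : ℝ) ^ 2 * |(y : ℝ) ^ 2 - x ^ 3| := by exact_mod_cast h1
      have h3 : (q : ℝ) ^ 2 ≤ w ^ 3 := by
        have h4 : ((q : ℝ) ^ 2) ^ 2 ≤ (w ^ 3) ^ 2 := by
          have h5 : (q : ℝ) ^ 4 ≤ x ^ 3 := by exact_mod_cast h
          rw [← hw2] at h5
          linarith [h5, (by ring : ((q : ℝ) ^ 2) ^ 2 = (q : ℝ) ^ 4),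
            (by ring : (w ^ 3) ^ 2 = (w ^ 2) ^ 3)]
        exact (sq_le_sq₀ (by positivity) (by positivity)).mp h4
      rw [div_le_iff₀ (by positivity)]
      set K := |(y : ℝ) ^ 2 - x ^ 3| with hK
      have hK0 : 0 ≤ K := abs_nonneg _
      have h4 : w ^ 3 * (A * w) ≤ w ^ 3 * (4 * K) := by
        calc w ^ 3 * (A * w) = A * x ^ 2 := by rw [← hw2]; ring
          _ ≤ 4 * (q : ℝ) ^ 2 * K := h2
          _ ≤ 4 * w ^ 3 * K := by gcongr
          _ = w ^ 3 * (4 * K) := by ring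
      have h5 : A * w ≤ 4 * K := le_of_mul_le_mul_left h4 (by positivity)
      have h6 : 1 * w ≤ A * w := by gcongr
      have h7 : K * (20 * 1) ≤ K * (20 * (A : ℝ) ^ 2) := by gcongr
      linarith
    · -- middle range
      have h1 := case_small hx hp hq hy hcop hk (by rw [← hA]; exact hq2)
      refine le_trans (le_min ?_ ?_) h1
      · rw [← hw, div_le_div_iff₀ (by positivity) (by norm_num)]
        have h2 : w ≤ √(w ^ 3) := by
          apply Real.le_sqrt_of_sq_le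
          exact pow_le_pow_right₀ hw1 (by norm_num)
        have h3 : √(w ^ 3) * (20 * 1) ≤ √(w ^ 3) * (20 * (A : ℝ) ^ 2) := by gcongr
        linarith
      · rw [← hw, div_le_div_iff₀ (by positivity) (by positivity)]
        have h2 : q ^ 2 < 2 * A ^ 2 * x := by
          have h3 : (q ^ 2) ^ 2 < (A * p) ^ 2 := pow_lt_pow_left₀ hd (by positivity) (by norm_num)
          have h4 : p ^ 2 ≤ 2 * (x * q ^ 2) := by linarith
          have h5 : A ^ 2 * p ^ 2 ≤ A ^ 2 * (2 * (x * q ^ 2)) := by gcongr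
          have h6 : q ^ 2 * q ^ 2 < q ^ 2 * (2 * A ^ 2 * x) := by nlinarith
          exact lt_of_mul_lt_mul_left h6 (by positivity)
        have h3 : (q : ℝ) ^ 2 ≤ 2 * (A : ℝ) ^ 2 * x := by exact_mod_cast h2.le
        rw [← hw2] at h3
        have h4 : w * (6 * (q : ℝ) ^ 2) ≤ w * (6 * (2 * (A : ℝ) ^ 2 * w ^ 2)) := by gcongr
        have h5 : 0 ≤ w ^ 3 * (A : ℝ) ^ 2 := by positivity
        nlinarith

end Pool.Agent.LibHall
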